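import Pool.Agent.Lib_MP_436432_co.Step

/-!
# MP_436432_co: every vertex outside an optimal candidate can be missed (piece ALLGOOD)
-/

set_option autoImplicit false
set_option linter.unusedSectionVars false

namespace EK

open Finset

variable {V : Type} [Fintype V] [DecidableEq V]

variable {W : Type} {T : SimpleGraph W} {G : SimpleGraph V} {k r n : ℕ} {β : Finset V}

namespace AllGood

theorem nb_split (G : SimpleGraph V) (v : V) (U : Finset V) :
    nb G v univ = nb G v U + nb G v (univ \ U) := by
  classical
  unfold nb
  rw [← Finset.card_union_of_disjoint]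
  · apply congrArg
    ext w
    simp only [Finset.mem_filter, Finset.mem_union, Finset.mem_univ, Finset.mem_sdiff, true_and]
    tauto
  · rw [Finset.disjoint_left]
    intro w h1 h2
    exact (Finset.mem_sdiff.mp (Finset.mem_filter.mp h2).1).2 (Finset.mem_filter.mp h1).1

theorem nb_le_card (G : SimpleGraph V) (v : V) (A : Finset V) : nb G v A ≤ A.card := by
  classical
  exact Finset.card_filter_le _ _

end AllGood

/-- Every vertex outside an optimal candidate can be missed by a copy (exchange lemma). Let `Z` be the set
of all `z ∉ U` with `¬ Good (insert z U)` and suppose it is not empty.  For `v ∉ U`, `v ∉ Z` we have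
`nb G v U ≤ r + 1 ≤ k` by `step`, so `v` has at least `|W|` neighbours outside `U`.  If more than `|W|` vertices are
outside `U`, then `Exch.exchange` for the graph induced on the complement of `U` (a copy there exists
by `Good T G U`) gives a copy missing some `z ∈ Z`: contradiction.  Otherwise take `x ∈ U`, `x ∉ β` (from `Cand`):
`nb G x U ≤ r` by `step` (`insert x U = U`), so its degree is at most `r + |W| < k + |W|`. -/
theorem all_good [Fintype W] (E : Ext T G k β r n) (hT : T.IsTree)
    (hδ : ∀ v, k + Fintype.card W ≤ nb G v univ) (hrk : r + 1 ≤ k) {U : Finset V}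
    (hU : Cand T G k β r U) (hn : U.card = n) : ∀ z, z ∉ U → Good T G (insert z U) := by
  classical
  intro z0 hz0
  by_contra hbad
  have hU' : Cand T G k β r U := hU
  obtain ⟨hβU, -, hgood, x, hxU, hxβ, -⟩ := hU
  obtain ⟨f, hf, hfU⟩ := hgood
  have hcardV : Fintype.card {v : V // v ∉ U} = (univ \ U).card := by
    rw [Fintype.card_subtype]
    apply congrArg
    ext v
    simp
  by_cases hlt : Fintype.card W < Fintype.card {v : V // v ∉ U}
  · -- the exchange lemma
    let G' : SimpleGraph {v : V // v ∉ U} := G.comap Subtype.val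
    let Z : Finset {v : V // v ∉ U} := univ.filter fun v => ¬ Good T G (insert v.1 U)
    have hZ : Z.Nonempty := ⟨⟨z0, hz0⟩, by simp only [Z, Finset.mem_filter]; exact ⟨mem_univ _, hbad⟩⟩
    let f' : W → {v : V // v ∉ U} := fun a => ⟨f a, hfU a⟩
    have hf' : Pool.Agent.Lib_MP_f6e057_co.Exch.IsCopy T G' f' :=
      ⟨fun a b h => hf.1 (congrArg Subtype.val h), fun a b h => hf.2 a b h⟩
    have hdeg : ∀ v, v ∉ Z → Fintype.card W ≤ G'.degree v := by
      intro v hv
      have hg : Good T G (insert v.1 U) := by
        by_contra h
        exact hv (by simp only [Z, Finset.mem_filter]; exact ⟨mem_univ _, h⟩)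
      obtain ⟨q, -, hq, hq2⟩ := step E hU' (fun h => v.2 (hβU h)) hg
      rw [Finset.card_insert_of_notMem v.2, hn] at hq2
      have h1 := hδ v.1
      rw [AllGood.nb_split G v.1 U] at h1
      have h2 : nb G v.1 (univ \ U) = G'.degree v := by
        unfold nb
        rw [← SimpleGraph.card_neighborFinset_eq_degree]
        rw [← Finset.card_map (Function.Embedding.subtype (fun v : V => v ∉ U))]
        apply congrArg
        ext w
        simp only [Finset.mem_filter, Finset.mem_sdiff, mem_univ, true_and, Finset.mem_map,
          SimpleGraph.mem_neighborFinset, Function.Embedding.coe_subtype]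
        constructor
        · rintro ⟨h3, h4⟩
          exact ⟨⟨w, h3⟩, h4, rfl⟩
        · rintro ⟨w', h3, rfl⟩
          exact ⟨w'.2, h3⟩
      omega
    obtain ⟨g, hg, z, hz, hgz⟩ := Pool.Agent.Lib_MP_f6e057_co.Exch.exchange hT hZ hdeg hlt hf'
    have hz2 : ¬ Good T G (insert z.1 U) := (Finset.mem_filter.mp hz).2
    apply hz2
    refine ⟨fun a => (g a).1, ⟨fun a b h => hg.1 (Subtype.ext h), fun a b h => hg.2 a b h⟩, ?_⟩
    intro a ha
    rcases Finset.mem_insert.mp ha with h | h
    · exact hgz a (Subtype.ext h)
    · exact (g a).2 h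
  · push Not at hlt
    have hins : insert x U = U := Finset.insert_eq_of_mem hxU
    obtain ⟨q, -, hq, hq2⟩ := step E hU' hxβ (by rw [hins]; exact ⟨f, hf, hfU⟩)
    rw [hins, hn] at hq2
    have h1 := hδ x
    rw [AllGood.nb_split G x U] at h1
    have h2 := AllGood.nb_le_card G x (univ \ U)
    omega

end EK
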