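import Pool.Agent.Lib_MP_436432_co.Cut

/-!
# MP_436432_co: edge-connectivity and cuts (piece CONV)
-/

set_option autoImplicit false
set_option linter.unusedSectionVars false

namespace EK

open Finset

/-- `G` is `k`-edge-connected: the removal of fewer than `k` edges leaves a connected graph, and `G` has at
least two vertices (one vertex is enough for `k ≤ 1`, the convention of the problem). -/
def EdgeConn {V : Type} (k : ℕ) (G : SimpleGraph V) : Prop :=
  (2 ≤ Nat.card V ∨ k ≤ 1) ∧ ∀ s : Finset (Sym2 V), s.card < k → (G.deleteEdges (s : Set (Sym2 V))).Connected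

variable {V : Type} [Fintype V] [DecidableEq V]

/-- Reachability inside a set without leaving edges. -/
theorem reach_closed {U : Type} {H : SimpleGraph U} {P : U → Prop}
    (hcl : ∀ u w, H.Adj u w → P u → P w) {u w : U} (h : H.Reachable u w) (hu : P u) : P w := by
  obtain ⟨p⟩ := h
  induction p with
  | nil => exact hu
  | cons hadj _ ih => exact ih (hcl _ _ hadj hu)

/-- If `cut G P < k`, delete the edges leaving `P` (image of the pairs under `Sym2.mk`): the rest is connected, but
no edge leaves `P`. -/
theorem cut_of_conn {k : ℕ} {G : SimpleGraph V} (h : EdgeConn k G) (P : Finset V) (hP : P.Nonempty)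
    (hP' : P ≠ univ) : k ≤ cut G P := by
  classical
  by_contra hlt
  rw [not_le] at hlt
  set F : Finset (V × V) := univ.filter (fun p : V × V => p.1 ∈ P ∧ p.2 ∉ P ∧ G.Adj p.1 p.2)
    with hF
  have hcut : cut G P = F.card := by
    unfold cut
    congr
  set s : Finset (Sym2 V) := F.image (fun p => s(p.1, p.2)) with hs
  have hcard : s.card < k := by
    refine lt_of_le_of_lt Finset.card_image_le ?_
    rw [← hcut]
    exact hlt
  have hconn := h.2 s hcard
  obtain ⟨v, hv⟩ := hP
  obtain ⟨w, hw⟩ : ∃ w, w ∉ P := by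
    by_contra hcon
    push Not at hcon
    exact hP' (Finset.eq_univ_iff_forall.mpr hcon)
  have hreach := hconn.preconnected v w
  apply hw
  refine reach_closed (P := fun x => x ∈ P) ?_ hreach hv
  intro x y hxy hx
  by_contra hy
  rw [SimpleGraph.deleteEdges_adj] at hxy
  apply hxy.2
  rw [Finset.mem_coe, hs, Finset.mem_image]
  refine ⟨(x, y), ?_, rfl⟩
  rw [hF, Finset.mem_filter]
  exact ⟨Finset.mem_univ _, hx, hy, hxy.1⟩

/-- If a graph `G.induce B` with fewer than `k` edges removed is not connected, let `P` be (the vertex set of)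
a component of it, mapped to `V`; all edges of `res G B` leaving `P` are removed ones, so `cut (res G B) P < k`. -/
theorem conn_of_cut {k : ℕ} {G : SimpleGraph V} {B : Finset V} (hB : B.Nonempty)
    (hB2 : 2 ≤ B.card ∨ k ≤ 1) (h : Ins (res G B) B k) : EdgeConn k (G.induce (B : Set V)) := by
  classical
  refine ⟨?_, ?_⟩
  · have hc : Nat.card ((B : Set V) : Type) = B.card := by
      rw [Nat.card_eq_fintype_card]
      exact Fintype.card_coe B
    rw [hc]
    exact hB2
  · intro s hs
    have : Nonempty ((B : Set V) : Type) := by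
      obtain ⟨b, hb⟩ := hB
      exact ⟨⟨b, hb⟩⟩
    refine { preconnected := ?_, nonempty := this }
    intro u v
    by_contra hcon
    set H := (G.induce (B : Set V)).deleteEdges (s : Set (Sym2 _)) with hH
    set P : Finset V := univ.filter (fun x => ∃ hx : x ∈ B, H.Reachable u ⟨x, hx⟩) with hP
    have hmem : ∀ x, x ∈ P ↔ ∃ hx : x ∈ B, H.Reachable u ⟨x, hx⟩ := by
      intro x
      rw [hP, Finset.mem_filter]
      exact ⟨fun h => h.2, fun h => ⟨Finset.mem_univ _, h⟩⟩
    have hk := h P ⟨u.1, u.2, (hmem _).mpr ⟨u.2, SimpleGraph.Reachable.refl _⟩⟩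
      ⟨v.1, v.2, fun hv => by
        obtain ⟨hx, h1⟩ := (hmem _).mp hv
        exact hcon h1⟩
    set F : Finset (V × V) := univ.filter
      (fun p : V × V => p.1 ∈ P ∧ p.2 ∉ P ∧ (res G B).Adj p.1 p.2) with hF
    have hcut : cut (res G B) P = F.card := by
      unfold cut
      congr
    have hinj : Set.InjOn (fun p : V × V => s(p.1, p.2)) (F : Set (V × V)) := by
      rintro ⟨a, b⟩ hab ⟨c, d⟩ hcd heq
      rw [Finset.mem_coe, hF, Finset.mem_filter] at hab hcd
      have h1 : s(a, b) = s(c, d) := heq
      rw [Sym2.eq_iff] at h1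
      rcases h1 with ⟨h1, h2⟩ | ⟨h1, h2⟩
      · rw [h1, h2]
      · exfalso
        have h3 : a ∈ P := hab.2.1
        have h4 : d ∉ P := hcd.2.2.1
        rw [h1] at h3
        exact h4 h3
    have hsub : F.image (fun p : V × V => s(p.1, p.2)) ⊆ s.image (Sym2.map Subtype.val) := by
      intro e he
      rw [Finset.mem_image] at he
      obtain ⟨⟨a, b⟩, hab, rfl⟩ := he
      rw [hF, Finset.mem_filter] at hab
      obtain ⟨_, ha, hb, hadj, haB, hbB⟩ := hab
      obtain ⟨_, hra⟩ := (hmem a).mp ha
      rw [Finset.mem_image]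
      refine ⟨s(⟨a, haB⟩, ⟨b, hbB⟩), ?_, rfl⟩
      by_contra hns
      apply hb
      rw [hmem]
      refine ⟨hbB, hra.trans (SimpleGraph.Adj.reachable ?_)⟩
      rw [hH, SimpleGraph.deleteEdges_adj]
      exact ⟨hadj, hns⟩
    have h1 : F.card ≤ s.card := by
      rw [← Finset.card_image_of_injOn hinj]
      exact (Finset.card_le_card hsub).trans Finset.card_image_le
    rw [hcut] at hk
    omega

end EK
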