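import Pool.Agent.Lib_MP_436432_co.Level

/-!
# MP_436432_co: the swap lemma (piece SWAP)
-/

set_option autoImplicit false
set_option linter.unusedSectionVars false

namespace EK

open Finset

variable {V : Type} [Fintype V] [DecidableEq V]
variable {G : SimpleGraph V} {U Y β : Finset V} {v : V} {c q : ℕ} {S : SimpleGraph V}

open Classical in
/-- the pairs leaving `P` -/
noncomputable def cutSet (H : SimpleGraph V) (P : Finset V) : Finset (V × V) :=
  univ.filter (fun p : V × V => p.1 ∈ P ∧ p.2 ∉ P ∧ H.Adj p.1 p.2)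

theorem mem_cutSet {H : SimpleGraph V} {P : Finset V} {p : V × V} :
    p ∈ cutSet H P ↔ p.1 ∈ P ∧ p.2 ∉ P ∧ H.Adj p.1 p.2 := by
  simp [cutSet]

theorem card_cutSet (H : SimpleGraph V) (P : Finset V) : (cutSet H P).card = cut H P := rfl

open Classical in
/-- the pairs `(v, y)` with `y ∈ N` a neighbour of `v` -/
noncomputable def nbSet (H : SimpleGraph V) (v : V) (N : Finset V) : Finset (V × V) :=
  (N.filter (fun w => H.Adj v w)).image (fun w => (v, w))

theorem mem_nbSet {H : SimpleGraph V} {v : V} {N : Finset V} {p : V × V} :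
    p ∈ nbSet H v N ↔ p.1 = v ∧ p.2 ∈ N ∧ H.Adj v p.2 := by
  classical
  unfold nbSet
  simp only [mem_image, mem_filter]
  constructor
  · rintro ⟨w, ⟨h1, h2⟩, rfl⟩
    exact ⟨rfl, h1, h2⟩
  · rintro ⟨h1, h2, h3⟩
    exact ⟨p.2, ⟨h2, h3⟩, by rw [← h1]⟩

theorem card_nbSet (H : SimpleGraph V) (v : V) (N : Finset V) : (nbSet H v N).card = nb H v N := by
  classical
  unfold nbSet nb
  rw [card_image_of_injective _ (fun w w' h => ((Prod.mk.injEq _ _ _ _).mp h).2)]

/-- The set `Ps` and its properties (α), (β), (γ). -/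
theorem Lev.ps (L : Lev G U Y β v c q S) (hc : nb S v U = c) (hcq : c < q) :
    ∃ P : Finset V, v ∈ P ∧ Disjoint P β ∧ (∀ y ∈ Y, S.Adj v y → y ∉ P) ∧
      cut (S ⊔ res G (insert v U)) P = q ∧ cut (res G (insert v U)) P = c ∧
      (∀ u w, u ∈ P → w ∉ P → (S ⊔ res G (insert v U)).Adj u w →
        (res G (insert v U)).Adj u w ∨ (u = v ∧ w ∈ Y ∧ S.Adj v w)) ∧
      (∀ u w, u ∈ P → w ∉ P → (S ⊔ res G (insert v U)).Adj u w → S.Adj u w) := by
  classical
  have h1 := L.nb_split
  have h3 : ∃ y ∈ Y, S.Adj v y := by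
    have : 0 < nb S v Y := by omega
    unfold nb at this
    obtain ⟨y, hy⟩ := card_pos.mp this
    rw [mem_filter] at hy
    exact ⟨y, hy.1, hy.2⟩
  obtain ⟨P, h4, h5, h6, h7⟩ := L.tight h3
  have h8 := L.count h4
  have h9 := L.link P h4 h5
  have h10 : nb S v (Y \ P) = nb S v Y := by
    unfold nb
    congr 1
    ext w
    simp only [mem_filter, mem_sdiff]
    constructor
    · rintro ⟨⟨a, -⟩, b⟩
      exact ⟨a, b⟩
    · rintro ⟨a, b⟩
      exact ⟨⟨a, h6 w a b⟩, b⟩
  have hα : cut (res G (insert v U)) P = c := by omega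
  refine ⟨P, h4, h5, h6, h7, hα, ?_, ?_⟩
  · -- (β)
    have hsub : cutSet (res G (insert v U)) P ∪ nbSet S v Y ⊆ cutSet (S ⊔ res G (insert v U)) P := by
      intro p hp
      rw [mem_union, mem_cutSet, mem_nbSet] at hp
      rw [mem_cutSet, SimpleGraph.sup_adj]
      rcases hp with ⟨a, b, d⟩ | ⟨a, b, d⟩
      · exact ⟨a, b, Or.inr d⟩
      · rw [a]
        exact ⟨h4, h6 _ b d, Or.inl d⟩
    have hdis : Disjoint (cutSet (res G (insert v U)) P) (nbSet S v Y) := by
      rw [disjoint_left]
      intro p hp1 hp2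
      rw [mem_cutSet] at hp1
      rw [mem_nbSet] at hp2
      exact L.notY hp1.2.2.2.2 hp2.2.1
    have hcard : (cutSet (S ⊔ res G (insert v U)) P).card ≤
        (cutSet (res G (insert v U)) P ∪ nbSet S v Y).card := by
      rw [card_union_of_disjoint hdis, card_cutSet, card_cutSet, card_nbSet]
      omega
    have heq := eq_of_subset_of_card_le hsub hcard
    intro u w hu hw huw
    have : (u, w) ∈ cutSet (res G (insert v U)) P ∪ nbSet S v Y := by
      rw [heq, mem_cutSet]
      exact ⟨hu, hw, huw⟩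
    rw [mem_union, mem_cutSet, mem_nbSet] at this
    rcases this with h | h
    · exact Or.inl h.2.2
    · exact Or.inr h
  · -- (γ)
    have hsub : cutSet S P ⊆ cutSet (S ⊔ res G (insert v U)) P := by
      intro p hp
      rw [mem_cutSet] at hp ⊢
      exact ⟨hp.1, hp.2.1, Or.inl hp.2.2⟩
    have hcard : (cutSet (S ⊔ res G (insert v U)) P).card ≤ (cutSet S P).card := by
      rw [card_cutSet, card_cutSet, h7]
      exact L.Sl P h4 h5
    have heq := eq_of_subset_of_card_le hsub hcard
    intro u w hu hw huw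
    have : (u, w) ∈ cutSet S P := by
      rw [heq, mem_cutSet]
      exact ⟨hu, hw, huw⟩
    exact (mem_cutSet.mp this).2.2

/-- the graph `H` without the edges touching `B` -/
def del (H : SimpleGraph V) (B : Finset V) : SimpleGraph V where
  Adj u w := H.Adj u w ∧ u ∉ B ∧ w ∉ B
  symm := ⟨fun _ _ h => ⟨h.1.symm, h.2.2, h.2.1⟩⟩
  loopless := ⟨fun _ h => h.1.ne rfl⟩

/-- (X3): no edge of `S` touches `Ps ∩ Y`. -/
theorem Lev.x3 (L : Lev G U Y β v c q S) (hc : nb S v U = c) {Ps : Finset V} (h1 : v ∈ Ps)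
    (h2 : Disjoint Ps β) (h3 : ∀ y ∈ Y, S.Adj v y → y ∉ Ps)
    (h4 : cut (S ⊔ res G (insert v U)) Ps = q)
    (h5 : ∀ u w, u ∈ Ps → w ∉ Ps → (S ⊔ res G (insert v U)).Adj u w →
        (res G (insert v U)).Adj u w ∨ (u = v ∧ w ∈ Y ∧ S.Adj v w)) :
    ∀ y w, y ∈ Ps → y ∈ Y → ¬ S.Adj y w := by
  classical
  set S2 := S ⊔ res G (insert v U) with hS2
  set S3 := del S2 (Ps ∩ Y) with hS3
  have hle : S3 ≤ res G (insert v (U ∪ Y)) := by
    intro a b hab
    rcases hab.1 with h | h
    · exact L.SX h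
    · exact res_mono (insert_subset_insert _ subset_union_left) h
  have hvB : v ∉ Ps ∩ Y := fun h => L.vY (mem_inter.mp h).2
  have hlk : Lk S3 β v q := by
    intro Q hvQ hQ
    set Q' := Q \ (Ps ∩ Y) with hQ'
    set P1 := Ps \ Y with hP1
    have e0 : cut S3 Q = cut S3 Q' := by
      apply cut_congr
      intro u w
      constructor
      · rintro ⟨a, b, d⟩
        exact ⟨mem_sdiff.mpr ⟨a, d.2.1⟩, fun h => b (mem_sdiff.mp h).1, d⟩
      · rintro ⟨a, b, d⟩
        exact ⟨(mem_sdiff.mp a).1, fun h => b (mem_sdiff.mpr ⟨h, d.2.2⟩), d⟩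
    have e1 := cut_sub S3 Q' P1
    have e2 : cut S3 P1 ≤ q := by
      rw [← h4, ← card_cutSet, ← card_cutSet]
      apply card_le_card
      intro p hp
      rw [mem_cutSet] at hp ⊢
      refine ⟨(mem_sdiff.mp hp.1).1, ?_, hp.2.2.1⟩
      intro h
      by_cases hy : p.2 ∈ Y
      · exact hp.2.2.2.2 (mem_inter.mpr ⟨h, hy⟩)
      · exact hp.2.1 (mem_sdiff.mpr ⟨h, hy⟩)
    have hvQP : v ∈ Q' ∩ P1 := by
      rw [mem_inter, mem_sdiff, mem_sdiff]
      exact ⟨⟨hvQ, hvB⟩, h1, L.vY⟩
    have e3 : q ≤ cut S3 (Q' ∩ P1) := by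
      have f1 := L.link (Q' ∩ P1) hvQP (by
        apply disjoint_of_subset_left _ h2
        intro x hx
        exact (mem_sdiff.mp (mem_inter.mp hx).2).1)
      have f2 := L.nb_split
      have hdis : Disjoint (cutSet (res G (insert v U)) (Q' ∩ P1)) (nbSet S v Y) := by
        rw [disjoint_left]
        intro p hp1 hp2
        rw [mem_cutSet] at hp1
        rw [mem_nbSet] at hp2
        exact L.notY hp1.2.2.2.2 hp2.2.1
      have f3 : cutSet (res G (insert v U)) (Q' ∩ P1) ∪ nbSet S v Y ⊆ cutSet S3 (Q' ∩ P1) := by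
        intro p hp
        rw [mem_union, mem_cutSet, mem_nbSet] at hp
        rw [mem_cutSet]
        rcases hp with ⟨a, b, d⟩ | ⟨a, b, d⟩
        · refine ⟨a, b, Or.inr d, ?_, ?_⟩
          · exact fun h => L.notY d.2.1 (mem_inter.mp h).2
          · exact fun h => L.notY d.2.2 (mem_inter.mp h).2
        · rw [a]
          have hn : p.2 ∉ Ps := h3 _ b d
          refine ⟨hvQP, ?_, Or.inl d, hvB, fun h => hn (mem_inter.mp h).1⟩
          intro h
          exact hn (mem_sdiff.mp (mem_inter.mp h).2).1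
      have f4 := card_le_card f3
      rw [card_union_of_disjoint hdis, card_cutSet, card_cutSet, card_nbSet] at f4
      omega
    have e4 : q ≤ cut S3 (Q' ∪ P1) := by
      have g1 : q ≤ cut S2 (Q' ∪ Ps) := by
        apply L.Sl.mono le_sup_left
        · exact mem_union_right _ h1
        · rw [disjoint_union_left]
          exact ⟨disjoint_of_subset_left sdiff_subset hQ, h2⟩
      refine g1.trans ?_
      rw [← card_cutSet, ← card_cutSet]
      apply card_le_card
      intro p hp
      rw [mem_cutSet] at hp ⊢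
      obtain ⟨a, b, d⟩ := hp
      rw [mem_union, not_or] at b
      -- the inner end is not in `Ps ∩ Y`
      have hin : p.1 ∉ Ps ∩ Y := by
        intro h
        rw [mem_inter] at h
        rcases h5 _ _ h.1 b.2 d with h' | ⟨h', -⟩
        · exact L.notY h'.2.1 h.2
        · rw [h'] at h
          exact L.vY h.2
      have hout : p.2 ∉ Ps ∩ Y := fun h => b.2 (mem_inter.mp h).1
      refine ⟨?_, ?_, d, hin, hout⟩
      · rw [mem_union] at a ⊢
        rcases a with a | a
        · exact Or.inl a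
        · right
          rw [mem_sdiff]
          exact ⟨a, fun h => hin (mem_inter.mpr ⟨a, h⟩)⟩
      · rw [mem_union, not_or]
        exact ⟨b.1, fun h => b.2 (mem_sdiff.mp h).1⟩
    omega
  have hmin := L.Smin S3 hle hlk
  intro y w hyP hyY hyw
  have hlt : nY S3 Y < nY S Y := by
    unfold nY
    apply card_lt_card
    rw [ssubset_iff_of_subset]
    · refine ⟨(y, w), ?_, ?_⟩
      · simp only [mem_filter, mem_univ, true_and]
        exact ⟨hyw, Or.inl hyY⟩
      · simp only [mem_filter, mem_univ, true_and, not_and]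
        intro h
        exact absurd (mem_inter.mpr ⟨hyP, hyY⟩) h.2.1
    · rintro ⟨a, b⟩ hp
      simp only [mem_filter, mem_univ, true_and] at hp ⊢
      refine ⟨?_, hp.2⟩
      rcases hp.1.1 with h | h
      · exact h
      · rcases hp.2 with h' | h'
        · exact absurd h' (L.notY h.2.1)
        · exact absurd h' (L.notY h.2.2)
  omega

/-- **Swap.**  Suppose `nb S v U = c < q`, `a ∈ U` is a neighbour of `v` isolated in `S`, `a ∉ β`, `v ∉ U`.
Then `X' = (insert v U).erase a` arises from `insert v U` by `repl`. -/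
theorem Lev.swap (L : Lev G U Y β v c q S) (hc : nb S v U = c) (hcq : c < q) {a : V} (haU : a ∈ U)
    (haβ : a ∉ β) (hvU : v ∉ U) (hva : G.Adj v a) (ha : ∀ w, ¬ S.Adj a w) :
    ∃ P : Finset V, v ∈ P ∧ a ∈ P ∧ P ⊆ insert v U ∧ Disjoint P β ∧
      cut (res G (insert v U)) P = c ∧
      Lk (res G ((insert v U).erase a)) β v c ∧
      (∀ k, Ins (res G (insert v U)) β k → Ins (res G ((insert v U).erase a)) β k) ∧
      (∀ w t, w ∉ P → Lk (res G (insert v U)) β w t → Lk (res G ((insert v U).erase a)) β w t) := by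
  classical
  obtain ⟨Ps, h1, h2, h3, h4, hα, hβ, hγ⟩ := L.ps hc hcq
  have hx3 := L.x3 hc h1 h2 h3 h4 hβ
  have hva' : v ≠ a := fun h => hvU (h ▸ haU)
  -- `a ∈ Ps`
  have haPs : a ∈ Ps := by
    by_contra h
    have := hγ v a h1 h (Or.inr ⟨hva, mem_insert_self _ _, mem_insert_of_mem haU⟩)
    exact ha v this.symm
  set P := Ps ∩ insert v U with hP
  have hvP : v ∈ P := mem_inter.mpr ⟨h1, mem_insert_self _ _⟩
  have haP : a ∈ P := mem_inter.mpr ⟨haPs, mem_insert_of_mem haU⟩
  have hPX : P ⊆ insert v U := inter_subset_right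
  have hPβ : Disjoint P β := disjoint_of_subset_left inter_subset_left h2
  have hPc : cut (res G (insert v U)) P = c := by
    rw [← hα, cut_res_inter G (insert v U) Ps]
  have hX' : (insert v U \ P) ∪ P.erase a = (insert v U).erase a := by
    ext x
    simp only [mem_union, mem_sdiff, mem_erase]
    constructor
    · rintro (⟨h5, h6⟩ | ⟨h5, h6⟩)
      · exact ⟨fun h => h6 (h ▸ haP), h5⟩
      · exact ⟨h5, hPX h6⟩
    · rintro ⟨h5, h6⟩
      by_cases h7 : x ∈ P
      · exact Or.inr ⟨h5, h7⟩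
      · exact Or.inl ⟨h6, h7⟩
  have hstar : ∀ K' : Finset V, K' ⊆ P.erase a → v ∈ K' →
      c ≤ cut (res G ((insert v U \ P) ∪ P.erase a)) K' := by
    intro K' hK' hvK'
    rw [hX']
    have hK'P : K' ⊆ Ps := fun x hx => (mem_inter.mp (mem_erase.mp (hK' hx)).2).1
    have g1 : q ≤ cut S K' := L.Sl K' hvK' (disjoint_of_subset_left hK'P h2)
    have g2 : cutSet S K' ⊆ cutSet (res G ((insert v U).erase a)) K' ∪ nbSet S v Y := by
      rintro ⟨u, w⟩ hp
      rw [mem_cutSet] at hp
      obtain ⟨hu, hw, huw⟩ := hp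
      simp only at hu hw huw
      rw [mem_union, mem_cutSet, mem_nbSet]
      have huP := hK' hu
      rw [mem_erase, mem_inter] at huP
      by_cases hwY : w ∈ Y
      · right
        have hwPs : w ∉ Ps := fun h => hx3 w u h hwY huw.symm
        rcases hβ u w (hK'P hu) hwPs (Or.inl huw) with h | ⟨h, h', h''⟩
        · exact absurd hwY (L.notY h.2.2)
        · exact ⟨h, h', h''⟩
      · left
        refine ⟨hu, hw, (L.SX huw).1, ?_, ?_⟩
        · rw [mem_erase]
          exact ⟨huP.1, huP.2.2⟩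
        · rw [mem_erase]
          refine ⟨fun h => ha u (by rw [← h]; exact huw.symm), ?_⟩
          have := (L.SX huw).2.2
          rcases mem_insert.mp this with h | h
          · rw [h]
            exact mem_insert_self _ _
          · rcases mem_union.mp h with h | h
            · exact mem_insert_of_mem h
            · exact absurd h hwY
    have g3 := (card_le_card g2).trans (card_union_le _ _)
    rw [card_cutSet, card_cutSet, card_nbSet] at g3
    have g4 := L.nb_split
    omega
  obtain ⟨r1, r2, r3⟩ := repl G (X := insert v U) (P := P) (K := P.erase a) (β := β) (v := v) (q := c)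
    (mem_erase.mpr ⟨hva', hvP⟩) (erase_subset _ _) hPX hPβ hPc.le L.link hstar
  rw [hX'] at r1 r2 r3
  exact ⟨P, hvP, haP, hPX, hPβ, hPc, r1, r2, r3⟩

end EK
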