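import Pool.Agent.Lib_MP_436432_co.CountLow
import Pool.Agent.Lib_MP_436432_co.Swap

/-!
# MP_436432_co: neighbours in `U ∪ Y` of a vertex of high level (piece HIGH)
-/

set_option autoImplicit false
set_option linter.unusedSectionVars false

namespace EK

open Finset

variable {V : Type} [Fintype V] [DecidableEq V]

variable {W : Type} {T : SimpleGraph W} {G : SimpleGraph V} {k r n : ℕ} {β U Y : Finset V}

namespace HighAux

lemma nb_split {S : SimpleGraph V} (h : S ≤ G) (v : V) (A B : Finset V)
    (hB : ∀ a, a ∈ B ↔ a ∈ A ∧ G.Adj v a ∧ ¬ S.Adj v a) : nb G v A = nb S v A + B.card := by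
  classical
  unfold nb
  rw [← card_union_of_disjoint]
  · congr 1
    ext a
    simp only [mem_filter, mem_union, hB]
    constructor
    · rintro ⟨h1, h2⟩
      by_cases h3 : S.Adj v a
      · exact Or.inl ⟨h1, h3⟩
      · exact Or.inr ⟨h1, h2, h3⟩
    · rintro (⟨h1, h2⟩ | ⟨h1, h2, h3⟩)
      · exact ⟨h1, h h2⟩
      · exact ⟨h1, h2⟩
  · rw [Finset.disjoint_left]
    intro a h1 h2
    exact ((hB a).1 h2).2.2 (mem_filter.1 h1).2

lemma nb_congr {H H' : SimpleGraph V} (v : V) (A : Finset V)
    (h : ∀ a ∈ A, H.Adj v a → H'.Adj v a) : nb H v A ≤ nb H' v A := by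
  classical
  unfold nb
  apply card_le_card
  intro a ha
  rw [mem_filter] at ha ⊢
  exact ⟨ha.1, h a ha.1 ha.2⟩

lemma nb_univ_le {S : SimpleGraph V} (v : V) (A : Finset V)
    (h : ∀ a, S.Adj v a → a ∈ A) : nb S v univ ≤ nb S v A := by
  classical
  unfold nb
  apply card_le_card
  intro a ha
  rw [mem_filter] at ha ⊢
  exact ⟨h a ha.2, ha.2⟩

end HighAux

/-- Case `Lk (r + 1)`.  Let `X1 = insert v (U ∪ Y)`, `U1 = insert v U`, `e = |U1| - n ∈ {0, 1}`.  `step` gives `c ≤ r` with
`Lk (res G U1) β v c`, `nb G v U ≤ c + e`.  `S` from `exists_min` for `res G X1`, `Y`, `q = r + 1`; `Lev G U Y β v c (r+1) S` holds.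
`nb G v β ≤ r`, since every cut of `res G U1` separating `v` from `β` contains the edges from `v` to `β` and
`Ext.top` says `¬ Lk (res G U1) β v (r + 1)`; so all edges from `v` to `β` are in `S` (last part of `exists_min`).
A neighbour `a ∈ U ∪ Y` of `v` that is not an `S`-neighbour is therefore not in `β` and isolated in `S`.
Let `AU`, `AY` be the sets of these in `U` and in `Y`: `nb G v (U ∪ Y) ≤ r + 1 + |AU| + |AY|`.
`|AU| = nb G v U - nb S v U ≤ c + e - c` by `Lev.start`.
`|AY| ≤ e`: `Y' = (insert v (Y \ AY)) \ U`; `S ≤ res G (U ∪ Y')`, so `v` is `(r + 1)`-linked in `U ∪ Y'` and `Pair.min` gives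
`|Y| ≤ |Y'| ≤ |Y| - |AY| + e`.
If `e = 0` we are done.  If `e = 1` and `AU = {a}`, `|AY| = 1`: `nb S v U = c` (`≥` by `Lev.start`, `≤` from
`nb G v U ≤ c + 1`).  `Lev.swap` (with `a`): `X' = (insert v U).erase a` is a candidate of size `n`: the vertex `x` of `Cand` for `U` is
outside `P` and stays linked (it is not `a` because `a ∈ P`), or it is in `P`, then `r ≤ cut (res G U1) P = c` and `v` is
`r`-linked in `X'`.  `S ≤ res G (X' ∪ (Y \ AY))`, so `Pair.min` gives `|Y| ≤ |Y| - 1`: contradiction. -/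
theorem count_high (E : Ext T G k β r n) (P : Pair T G k β r n U Y) {v : V} (hv : v ∉ β) (hvY : v ∉ Y)
    (hg : Good T G (insert v U)) (hq : Lk (res G (insert v (U ∪ Y))) β v (r + 1)) :
    nb G v (U ∪ Y) + n ≤ r + 1 + (insert v U).card := by
  classical
  have hβU : β ⊆ U := P.cand.1
  have hβY : Disjoint β Y := Finset.disjoint_of_subset_left hβU P.dUY
  obtain ⟨c, hc1, hcr, hc2⟩ := step E P.cand hv hg
  obtain ⟨S, hSX, hSl, hSmin, hSdeg, hiso, hall⟩ :=
    exists_min (res G (insert v (U ∪ Y))) β Y v (r + 1) hv hvY hβY hq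
  have L : Lev G U Y β v c (r + 1) S :=
    ⟨P.dUY, hvY, hv, hβU, hc1, by omega, hSX, hSl, hSmin, hSdeg⟩
  have hvX1 : v ∈ insert v (U ∪ Y) := mem_insert_self _ _
  -- all edges from `v` to `β` are in `S`
  have hInsU1 : Ins (res G (insert v U)) β k :=
    P.cand.2.1.mono (res_mono (subset_insert v U))
  have hβnb : nb (res G (insert v (U ∪ Y))) v β < r + 1 := by
    have h1 := E.top (insert v U) (hβU.trans (subset_insert v U)) hInsU1 hg v
      (mem_insert_self _ _) hv
    unfold Lk at h1
    push Not at h1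
    obtain ⟨P', h2, h3, h4⟩ := h1
    have h5 : nb (res G (insert v U)) v β ≤ cut (res G (insert v U)) P' :=
      nb_le_cut _ h2 h3.symm
    have h6 : nb (res G (insert v (U ∪ Y))) v β ≤ nb (res G (insert v U)) v β :=
      HighAux.nb_congr v β (fun a ha h => ⟨h.1, mem_insert_self _ _,
        mem_insert_of_mem (hβU ha)⟩)
    omega
  have hβS : ∀ a ∈ β, G.Adj v a → S.Adj v a := fun a ha h =>
    hall hβnb a ha ⟨h, hvX1, mem_insert_of_mem (mem_union_left _ (hβU ha))⟩
  have hSG : S ≤ G := fun a b h => (hSX h).1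
  -- unused neighbours
  have hun : ∀ a ∈ U ∪ Y, G.Adj v a → ¬ S.Adj v a → a ∉ β ∧ ∀ w, ¬ S.Adj a w := by
    intro a ha h1 h2
    have h3 : a ∉ β := fun h4 => h2 (hβS a h4 h1)
    exact ⟨h3, hiso a ⟨h1, hvX1, mem_insert_of_mem ha⟩ h3 h2⟩
  set AU := U.filter (fun a => G.Adj v a ∧ ¬ S.Adj v a) with hAU
  set AY := Y.filter (fun a => G.Adj v a ∧ ¬ S.Adj v a) with hAY
  have hU := HighAux.nb_split hSG v U AU (fun a => by rw [hAU, mem_filter])
  have hY := HighAux.nb_split hSG v Y AY (fun a => by rw [hAY, mem_filter])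
  have hGU := nb_union (H := G) v P.dUY
  have hSU := nb_union (H := S) v P.dUY
  have hSle : nb S v univ ≤ nb S v (U ∪ Y) := by
    apply HighAux.nb_univ_le
    intro a ha
    have h1 := (hSX ha).2.2
    rw [mem_insert] at h1
    rcases h1 with h1 | h1
    · exact absurd h1.symm ha.ne
    · exact h1
  have hSge : nb S v (U ∪ Y) ≤ nb S v univ := nb_mono le_rfl v (subset_univ _)
  have hstart := L.start
  -- vertices of `AY` are isolated in `S`
  have hAYiso : ∀ a ∈ AY, ∀ w, ¬ S.Adj a w := by
    intro a ha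
    rw [hAY, mem_filter] at ha
    exact (hun a (mem_union_right _ ha.1) ha.2.1 ha.2.2).2
  have hAYY : AY ⊆ Y := filter_subset _ _
  have hcardY : (Y \ AY).card + AY.card = Y.card := card_sdiff_add_card_eq_card hAYY
  -- `|AY| ≤ e`
  have hYe : Y.card ≤ ((insert v (Y \ AY)) \ U).card := by
    apply P.min U _ P.cand P.card
    refine ⟨v, ?_, hv, ?_⟩
    · by_cases hvU : v ∈ U
      · exact mem_union_left _ hvU
      · exact mem_union_right _ (mem_sdiff.2 ⟨mem_insert_self _ _, hvU⟩)
    · apply hSl.mono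
      have key : ∀ a b, S.Adj a b → a ∈ U ∪ (insert v (Y \ AY)) \ U := by
        intro a b hab
        by_cases haU : a ∈ U
        · exact mem_union_left _ haU
        · apply mem_union_right
          rw [mem_sdiff]
          refine ⟨?_, haU⟩
          have h1 := (hSX hab).2.1
          rw [mem_insert, mem_union] at h1
          rcases h1 with h1 | h1 | h1
          · rw [h1]; exact mem_insert_self _ _
          · exact absurd h1 haU
          · exact mem_insert_of_mem (mem_sdiff.2 ⟨h1, fun h2 => hAYiso a h2 b hab⟩)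
      intro a b hab
      exact ⟨hSG hab, key a b hab, key b a hab.symm⟩
  by_cases hvU : v ∈ U
  · have h1 : insert v U = U := insert_eq_of_mem hvU
    rw [h1] at hc2 ⊢
    have h2 : ((insert v (Y \ AY)) \ U).card ≤ (Y \ AY).card := by
      apply card_le_card
      intro a ha
      rw [mem_sdiff, mem_insert] at ha
      rcases ha with ⟨ha | ha, ha2⟩
      · rw [ha] at ha2; exact absurd hvU ha2
      · exact ha
    have := P.card
    omega
  · have h1 : (insert v U).card = U.card + 1 := card_insert_of_notMem hvU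
    have h2 : ((insert v (Y \ AY)) \ U).card ≤ (Y \ AY).card + 1 :=
      (card_le_card sdiff_subset).trans (card_insert_le _ _)
    have hUn := P.card
    by_contra hcon
    have hAU1 : AU.card = 1 := by omega
    have hAY1 : AY.card = 1 := by omega
    have hcS : nb S v U = c := by omega
    obtain ⟨a, ha⟩ := card_eq_one.1 hAU1
    have haAU : a ∈ AU := by rw [ha]; exact mem_singleton_self _
    rw [hAU, mem_filter] at haAU
    obtain ⟨haU, hva, hnS⟩ := haAU
    obtain ⟨haβ, haiso⟩ := hun a (mem_union_left _ haU) hva hnS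
    obtain ⟨Q, hvQ, haQ, hQU, hQβ, hQc, hl1, hl2, hl3⟩ :=
      L.swap hcS (by omega) haU haβ hvU hva haiso
    have hav : v ≠ a := hva.ne
    have hvX' : v ∈ (insert v U).erase a := mem_erase.2 ⟨hav, mem_insert_self _ _⟩
    have hcand : Cand T G k β r ((insert v U).erase a) := by
      refine ⟨?_, hl2 k hInsU1, hg.mono (erase_subset _ _), ?_⟩
      · intro b hb
        exact mem_erase.2 ⟨fun h3 => haβ (h3 ▸ hb), mem_insert_of_mem (hβU hb)⟩
      · obtain ⟨x, hxU, hxβ, hxl⟩ := P.cand.2.2.2
        have hxl' : Lk (res G (insert v U)) β x r := hxl.mono (res_mono (subset_insert v U))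
        by_cases hxQ : x ∈ Q
        · have h3 := hxl' Q hxQ hQβ
          have h4 : c = r := by omega
          exact ⟨v, hvX', hv, h4 ▸ hl1⟩
        · exact ⟨x, mem_erase.2 ⟨fun h3 => hxQ (h3 ▸ haQ), mem_insert_of_mem hxU⟩, hxβ,
            hl3 x r hxQ hxl'⟩
    have hcardX : ((insert v U).erase a).card = n := by
      rw [card_erase_of_mem (mem_insert_of_mem haU)]
      omega
    have hfin : Y.card ≤ (Y \ AY).card := by
      apply P.min _ _ hcand hcardX
      refine ⟨v, mem_union_left _ hvX', hv, ?_⟩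
      apply hSl.mono
      have key : ∀ b w, S.Adj b w → b ∈ (insert v U).erase a ∪ (Y \ AY) := by
        intro b w hbw
        have h1 := (hSX hbw).2.1
        rw [mem_insert, mem_union] at h1
        have hba : b ≠ a := fun h3 => haiso w (h3 ▸ hbw)
        rcases h1 with h1 | h1 | h1
        · rw [h1]; exact mem_union_left _ hvX'
        · exact mem_union_left _ (mem_erase.2 ⟨hba, mem_insert_of_mem h1⟩)
        · exact mem_union_right _ (mem_sdiff.2 ⟨h1, fun h2 => hAYiso b h2 w hbw⟩)
      intro b w hbw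
      exact ⟨hSG hbw, key b w hbw, key w b hbw.symm⟩
    omega

end EK
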