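import Pool.Agent.Lib_MP_436432_co.AllGood
import Pool.Agent.Lib_MP_436432_co.CountHigh
import Pool.Agent.Lib_MP_f6e057_co.AC.EmbedIn

/-!
# MP_436432_co: the core theorem (assembly, helper88)
-/

set_option autoImplicit false
set_option linter.unusedSectionVars false

namespace EK

open Finset

variable {V : Type} [Fintype V] [DecidableEq V] {W : Type} [Fintype W] {T : SimpleGraph W}
  {G : SimpleGraph V}

/-- greedy copy inside a nonempty set of large minimum degree -/
theorem embed_good (hT : T.IsTree) {X : Finset V} (hne : Xᶜ.Nonempty)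
    (hd : ∀ v, v ∉ X → Fintype.card W ≤ nb G v Xᶜ + 1) : Good T G X := by
  classical
  obtain ⟨g, h1, h2⟩ := Pool.Agent.Lib_MP_f6e057_co.AC.embed_in G hT (O := Xᶜ) hne (by
    intro v hv
    have := hd v (by simpa using hv)
    exact this)
  exact ⟨g, h1, fun a => by simpa using h2 a⟩

theorem ins_insert {H : SimpleGraph V} {β : Finset V} {v : V} {k : ℕ} (h1 : Ins H β k)
    (h2 : Lk H β v k) : Ins H (insert v β) k := by
  intro P hb hb'
  by_cases hA : ∃ b ∈ β, b ∈ P
  · by_cases hB : ∃ b ∈ β, b ∉ P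
    · exact h1 P hA hB
    · push Not at hB
      have hv : v ∉ P := by
        obtain ⟨b, hb1, hb2⟩ := hb'
        rcases mem_insert.mp hb1 with rfl | h
        · exact hb2
        · exact absurd (hB b h) hb2
      rw [← cut_compl]
      apply h2
      · simpa using hv
      · rw [disjoint_left]
        intro a ha haβ
        rw [mem_compl] at ha
        exact ha (hB a haβ)
  · push Not at hA
    have hv : v ∈ P := by
      obtain ⟨b, hb1, hb2⟩ := hb
      rcases mem_insert.mp hb1 with rfl | h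
      · exact hb2
      · exact absurd hb2 (hA b h)
    apply h2 P hv
    rw [disjoint_left]
    intro a ha haβ
    exact hA a haβ ha

theorem res_univ (G : SimpleGraph V) : res G univ = G := by
  ext u w
  simp [res]

theorem core (hT : T.IsTree) {k : ℕ} (hk : 1 ≤ k)
    (hδ : ∀ v, k + Fintype.card W ≤ nb G v univ)
    (hG : ∀ P : Finset V, P.Nonempty → P ≠ univ → k ≤ cut G P) [Nonempty V] :
    ∃ f : W → V, Pool.Agent.Lib_MP_f6e057_co.Exch.IsCopy T G f ∧
      Ins (res G (univ.image f)ᶜ) (univ.image f)ᶜ k := by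
  classical
  by_contra hno
  push Not at hno
  have hm : 1 ≤ Fintype.card W := Fintype.card_pos_iff.mpr hT.connected.nonempty
  -- the maximal inseparable set
  let Pβ : Finset V → Prop := fun β => β.Nonempty ∧ ∃ X, β ⊆ X ∧ Ins (res G X) β k ∧ Good T G X
  obtain ⟨v0⟩ := ‹Nonempty V›
  have hP0 : Pβ {v0} := by
    refine ⟨singleton_nonempty _, {v0}, Subset.rfl, ?_, ?_⟩
    · rintro P ⟨b, hb, hbP⟩ ⟨b', hb', hbP'⟩
      rw [mem_singleton] at hb hb'
      subst hb hb'
      exact absurd hbP hbP'
    · have hdeg : ∀ v : V, k + Fintype.card W ≤ nb G v ({v0} : Finset V)ᶜ + 1 := by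
        intro v
        have h1 := hδ v
        have h2 : nb G v univ ≤ nb G v ({v0} : Finset V)ᶜ + nb G v {v0} := by
          rw [← nb_union v (disjoint_compl_left), union_comm, union_compl]
        have h3 : nb G v {v0} ≤ 1 := by
          unfold nb
          exact (card_filter_le _ _).trans (by simp)
        omega
      apply embed_good hT
      · by_contra hemp
        rw [not_nonempty_iff_eq_empty] at hemp
        have := hdeg v0
        rw [hemp] at this
        unfold nb at this
        simp at this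
        omega
      · intro v _
        have := hdeg v
        omega
  obtain ⟨β, hβ, hβmax⟩ := exists_max_image (univ.filter Pβ) card ⟨{v0}, by simpa using hP0⟩
  rw [mem_filter] at hβ
  obtain ⟨-, hβne, X0, hX0, hI0, hg0⟩ := hβ
  have hmax : ∀ β', Pβ β' → β'.card ≤ β.card := fun β' h => hβmax β' (by simpa using h)
  -- no vertex is k-linked
  have hlk : ∀ X, β ⊆ X → Ins (res G X) β k → Good T G X → ∀ v ∈ X, v ∉ β →
      ¬ Lk (res G X) β v k := by
    intro X h1 h2 h3 v h4 h5 h6
    have := hmax (insert v β) ⟨insert_nonempty _ _, X, insert_subset h4 h1, ins_insert h2 h6, h3⟩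
    rw [card_insert_of_notMem h5] at this
    omega
  -- further vertices
  have hfur : ∃ X, β ⊆ X ∧ Ins (res G X) β k ∧ Good T G X ∧ ∃ x ∈ X, x ∉ β ∧ Lk (res G X) β x 0 := by
    obtain ⟨f, hf1, hf2⟩ := hg0
    have hsub : X0 ⊆ (univ.image f)ᶜ := by
      intro a ha
      rw [mem_compl, mem_image]
      rintro ⟨w, -, rfl⟩
      exact hf2 w ha
    have hne : β ≠ (univ.image f)ᶜ := by
      intro h
      apply hno f hf1
      have := hI0.mono (res_mono hsub)
      rw [h] at this
      exact this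
    obtain ⟨x, hx, hxβ⟩ := exists_of_ssubset (lt_of_le_of_ne (hX0.trans hsub) hne)
    exact ⟨_, hX0.trans hsub, hI0.mono (res_mono hsub), ⟨f, hf1, fun a => by simp⟩, x, hx, hxβ,
      fun P _ _ => Nat.zero_le _⟩
  -- the level
  let PL : ℕ → Prop := fun t => ∃ X, β ⊆ X ∧ Ins (res G X) β k ∧ Good T G X ∧
    ∃ x ∈ X, x ∉ β ∧ Lk (res G X) β x t
  obtain ⟨r, hr, hrmax⟩ : ∃ r, PL r ∧ ¬ PL (r + 1) := by
    by_contra hcon
    push Not at hcon
    have hall : ∀ t, PL t := by
      intro t
      induction t with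
      | zero => exact hfur
      | succ t ih => exact hcon t ih
    obtain ⟨X, h1, h2, h3, v, h4, h5, h6⟩ := hall k
    exact hlk X h1 h2 h3 v h4 h5 h6
  have hrk : r + 1 ≤ k := by
    by_contra hcon
    obtain ⟨X, h1, h2, h3, v, h4, h5, h6⟩ := hr
    exact hlk X h1 h2 h3 v h4 h5 (fun P hP hP' => le_trans (by omega) (h6 P hP hP'))
  -- the smallest candidate
  obtain ⟨U0, hU0, hU0min⟩ := exists_min_image (univ.filter (Cand T G k β r)) card
    ⟨hr.choose, by simpa [Cand] using hr.choose_spec⟩
  rw [mem_filter] at hU0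
  have E : Ext T G k β r U0.card := by
    refine ⟨?_, ?_⟩
    · intro X h1 h2 h3 v h4 h5 h6
      exact hrmax ⟨X, h1, h2, h3, v, h4, h5, h6⟩
    · intro X hX
      exact hU0min X (by simpa using hX)
  have hall : ∀ U, Cand T G k β r U → U.card = U0.card → ∀ z, z ∉ U → Good T G (insert z U) :=
    fun U h1 h2 => all_good E hT hδ hrk h1 h2
  -- the smallest pair
  let PP : Finset V × Finset V → Prop := fun p => Cand T G k β r p.1 ∧ p.1.card = U0.card ∧
    ∃ w ∈ p.1 ∪ p.2, w ∉ β ∧ Lk (res G (p.1 ∪ p.2)) β w (r + 1)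
  have hPP0 : PP (U0, U0ᶜ) := by
    refine ⟨hU0.2, rfl, ?_⟩
    obtain ⟨h1, h2, h3, x, h4, h5, h6⟩ := hU0.2
    refine ⟨x, mem_union_left _ h4, h5, ?_⟩
    change Lk (res G (U0 ∪ U0ᶜ)) β x (r + 1)
    rw [union_compl, res_univ]
    intro P hxP hP
    refine hrk.trans (hG P ⟨x, hxP⟩ ?_)
    rintro rfl
    obtain ⟨b, hb⟩ := hβne
    exact disjoint_left.mp hP (mem_univ b) hb
  obtain ⟨⟨U, Y0⟩, hUY, hUYmin⟩ := exists_min_image (univ.filter PP) (fun p => p.2.card)
    ⟨(U0, U0ᶜ), by simpa using hPP0⟩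
  rw [mem_filter] at hUY
  obtain ⟨-, hUc, hUn, hUl⟩ := hUY
  simp only at hUc hUn hUl
  have hmin' : ∀ U' Y' : Finset V, Cand T G k β r U' → U'.card = U0.card →
      (∃ w ∈ U' ∪ Y', w ∉ β ∧ Lk (res G (U' ∪ Y')) β w (r + 1)) → Y0.card ≤ Y'.card :=
    fun U' Y' h1 h2 h3 => hUYmin (U', Y') (by
      rw [mem_filter]
      exact ⟨mem_univ _, h1, h2, h3⟩)
  have hUeq : U ∪ (Y0 \ U) = U ∪ Y0 := by
    simp
  have P : Pair T G k β r U0.card U (Y0 \ U) := by
    refine ⟨hUc, hUn, disjoint_sdiff, ?_, ?_⟩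
    · rw [hUeq]
      exact hUl
    · intro U' Y' h1 h2 h3
      exact (card_le_card sdiff_subset).trans (hmin' U' Y' h1 h2 h3)
  -- counting
  have hcount : ∀ v, v ∉ β → v ∉ Y0 \ U → nb G v (U ∪ (Y0 \ U)) + U0.card ≤ r + 1 +
      (insert v U).card := by
    intro v hv hvY
    have hg : Good T G (insert v U) := by
      by_cases hvU : v ∈ U
      · rw [insert_eq_of_mem hvU]
        exact hUc.2.2.1
      · exact hall U hUc hUn v hvU
    have h1 : (insert v U).card ≤ U0.card + 1 := by
      rw [← hUn]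
      exact card_insert_le _ _
    by_cases hq : Lk (res G (insert v (U ∪ (Y0 \ U)))) β v (r + 1)
    · exact count_high E P hv hvY hg hq
    · have := count_low E P hv hvY hg hq
      omega
  set X := U ∪ (Y0 \ U) with hX
  have hβX : β ⊆ X := hUc.1.trans subset_union_left
  have hne : Xᶜ.Nonempty := by
    by_contra hemp
    rw [not_nonempty_iff_eq_empty, compl_eq_empty_iff] at hemp
    obtain ⟨-, -, -, x, hxU, hxβ, -⟩ := hUc
    have h1 := hcount x hxβ (by simp [hxU])
    rw [insert_eq_of_mem hxU, hUn, hemp] at h1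
    have h2 := hδ x
    omega
  have hgood : Good T G X := by
    apply embed_good hT hne
    intro v hv
    have hvU : v ∉ U := fun h => hv (mem_union_left _ h)
    have hvY : v ∉ Y0 \ U := fun h => hv (mem_union_right _ h)
    have h1 := hcount v (fun h => hv (hβX h)) hvY
    rw [card_insert_of_notMem hvU, hUn] at h1
    have h2 := hδ v
    have h3 : nb G v univ = nb G v Xᶜ + nb G v X := by
      rw [← nb_union v (disjoint_compl_left), union_comm, union_compl]
    omega
  obtain ⟨w, hw1, hw2, hw3⟩ := P.lk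
  exact E.top X hβX (hUc.2.1.mono (res_mono subset_union_left)) hgood w hw1 hw2 hw3

end EK
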