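import Pool.Agent.Lib_MP_436432_co.Repl

/-!
# MP_436432_co: raising the level, cheap edges first (piece LEVEL)

Situation of the whole file: `U`, `Y` disjoint, `v ∉ Y`, `v ∉ β ⊆ U`; `U1 = insert v U`, `X1 = insert v (U ∪ Y)`;
`v` is `c`-linked to `β` in `res G U1`; `S ≤ res G X1` is `q`-linking and has the least number of edges touching
`Y` among all such graphs; `nb S v univ = q`.  Put `S2 = S ⊔ res G U1` (the added edges do not touch `Y`).
-/

set_option autoImplicit false
set_option linter.unusedSectionVars false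

namespace EK

open Finset

variable {V : Type} [Fintype V] [DecidableEq V]

structure Lev (G : SimpleGraph V) (U Y β : Finset V) (v : V) (c q : ℕ) (S : SimpleGraph V) : Prop where
  dUY : Disjoint U Y
  vY : v ∉ Y
  vβ : v ∉ β
  βU : β ⊆ U
  link : Lk (res G (insert v U)) β v c
  cq : c ≤ q
  SX : S ≤ res G (insert v (U ∪ Y))
  Sl : Lk S β v q
  Smin : ∀ S' ≤ res G (insert v (U ∪ Y)), Lk S' β v q → nY S Y ≤ nY S' Y
  Sdeg : nb S v univ = q

variable {G : SimpleGraph V} {U Y β : Finset V} {v : V} {c q : ℕ} {S : SimpleGraph V}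

theorem Lev.notY (L : Lev G U Y β v c q S) {x : V} (hx : x ∈ insert v U) : x ∉ Y := by
  rcases mem_insert.mp hx with rfl | h
  · exact L.vY
  · exact disjoint_left.mp L.dUY h

/-- For every set `P` containing `v`: the edges of `res G U1` leaving `P` and the edges `vy` of `S` with
`y ∈ Y \ P` are different edges of `S2` leaving `P`. -/
theorem Lev.count (L : Lev G U Y β v c q S) {P : Finset V} (hv : v ∈ P) :
    cut (res G (insert v U)) P + nb S v (Y \ P) ≤ cut (S ⊔ res G (insert v U)) P := by
  classical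
  unfold cut nb
  rw [← card_image_of_injective ((Y \ P).filter (fun w => S.Adj v w)) (f := fun w => (v, w))
    (fun w w' h => ((Prod.mk.injEq _ _ _ _).mp h).2), ← card_union_of_disjoint]
  · apply card_le_card
    intro p hp
    simp only [mem_union, mem_filter, mem_univ, true_and, mem_image, mem_sdiff] at hp
    simp only [mem_filter, mem_univ, true_and, SimpleGraph.sup_adj]
    rcases hp with ⟨h1, h2, h3⟩ | ⟨w, ⟨⟨h1, h2⟩, h3⟩, rfl⟩
    · exact ⟨h1, h2, Or.inr h3⟩
    · exact ⟨hv, h2, Or.inl h3⟩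
  · rw [disjoint_left]
    intro p hp1 hp2
    simp only [mem_filter, mem_univ, true_and] at hp1
    simp only [mem_image, mem_filter, mem_sdiff] at hp2
    obtain ⟨w, ⟨⟨h1, -⟩, -⟩, rfl⟩ := hp2
    exact L.notY hp1.2.2.2.2 h1

/-- intersections of tight sets -/
theorem tight_inter {H : SimpleGraph V} (hH : Lk H β v q) {P Q : Finset V} (hvP : v ∈ P)
    (hvQ : v ∈ Q) (hP : Disjoint P β) (hQ : Disjoint Q β) (h1 : cut H P = q) (h2 : cut H Q = q) :
    cut H (P ∩ Q) = q := by
  have h3 := cut_sub H P Q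
  have h4 := hH (P ∩ Q) (mem_inter.mpr ⟨hvP, hvQ⟩) (disjoint_of_subset_left inter_subset_left hP)
  have h5 := hH (P ∪ Q) (mem_union_left _ hvP) (disjoint_union_left.mpr ⟨hP, hQ⟩)
  omega

/-- a common tight set avoiding a nonempty set `N` -/
theorem tight_avoid {H : SimpleGraph V} (hH : Lk H β v q) (N : Finset V) (hN : N.Nonempty)
    (h : ∀ y ∈ N, ∃ P : Finset V, v ∈ P ∧ Disjoint P β ∧ y ∉ P ∧ cut H P = q) :
    ∃ P : Finset V, v ∈ P ∧ Disjoint P β ∧ (∀ y ∈ N, y ∉ P) ∧ cut H P = q := by
  induction hN using Finset.Nonempty.cons_induction with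
  | singleton a =>
    obtain ⟨P, h1, h2, h3, h4⟩ := h a (mem_singleton_self a)
    exact ⟨P, h1, h2, by simpa using h3, h4⟩
  | cons a s ha hs ih =>
    obtain ⟨P, h1, h2, h3, h4⟩ := h a (mem_cons_self a s)
    obtain ⟨Q, h5, h6, h7, h8⟩ := ih (fun y hy => h y (mem_cons.mpr (Or.inr hy)))
    refine ⟨P ∩ Q, mem_inter.mpr ⟨h1, h5⟩, disjoint_of_subset_left inter_subset_left h2, ?_,
      tight_inter hH h1 h5 h2 h6 h4 h8⟩
    intro y hy hyP
    rcases mem_cons.mp hy with rfl | hy
    · exact h3 (mem_inter.mp hyP).1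
    · exact h7 y hy (mem_inter.mp hyP).2

/-- deleting one edge lowers a cut by at most one, and not at all if it does not leave the set -/
theorem cut_deleteEdge (H : SimpleGraph V) (v y : V) {P : Finset V} (hv : v ∈ P) :
    cut H P ≤ cut (H.deleteEdges {s(v, y)}) P + (if y ∈ P then 0 else 1) := by
  unfold cut
  split_ifs with hy
  · rw [add_zero]
    apply card_le_card
    rintro ⟨u, w⟩ hp
    simp only [mem_filter, mem_univ, true_and, SimpleGraph.deleteEdges_adj,
      Set.mem_singleton_iff, Sym2.eq_iff] at hp ⊢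
    refine ⟨hp.1, hp.2.1, hp.2.2, ?_⟩
    rintro (⟨rfl, rfl⟩ | ⟨rfl, rfl⟩)
    · exact hp.2.1 hy
    · exact hp.2.1 hv
  · refine le_trans (card_le_card ?_) (card_insert_le (v, y) _)
    · rintro ⟨u, w⟩ hp
      simp only [mem_insert, mem_filter, mem_univ, true_and, SimpleGraph.deleteEdges_adj,
        Set.mem_singleton_iff, Sym2.eq_iff, Prod.mk.injEq] at hp ⊢
      by_cases h : u = v ∧ w = y
      · exact Or.inl h
      · right
        refine ⟨hp.1, hp.2.1, hp.2.2, ?_⟩
        rintro (h' | ⟨rfl, rfl⟩)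
        · exact h h'
        · exact hp.2.1 hv

theorem nY_delete_lt {H H' : SimpleGraph V} {Y : Finset V} {v y : V} (hy : y ∈ Y)
    (hvy : H.Adj v y) (h : ∀ a b, H'.Adj a b → (a ∈ Y ∨ b ∈ Y) → H.Adj a b) :
    nY (H'.deleteEdges {s(v, y)}) Y < nY H Y := by
  classical
  unfold nY
  apply card_lt_card
  rw [ssubset_iff_of_subset]
  · refine ⟨(v, y), ?_, ?_⟩
    · simp only [mem_filter, mem_univ, true_and]
      exact ⟨hvy, Or.inr hy⟩
    · simp
  · rintro ⟨a, b⟩ hp
    simp only [mem_filter, mem_univ, true_and, SimpleGraph.deleteEdges_adj] at hp ⊢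
    exact ⟨h a b hp.1.1 hp.2, hp.2⟩

/-- If `v` has an `S`-neighbour in `Y`, then there is a tight set of `S2` containing `v` and no `S`-neighbour of
`v` in `Y`.  Proof: for every such neighbour `y` there is a tight set of `S2` containing `v` and not `y`,
since otherwise `S2` minus the edge `vy` is still `q`-linking and touches `Y` in fewer edges than `S`.
Intersect these (tight sets are closed under intersection by `cut_sub`, all `Lk S2` cuts are at least `q`). -/
theorem Lev.tight (L : Lev G U Y β v c q S) (hy : ∃ y ∈ Y, S.Adj v y) :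
    ∃ P : Finset V, v ∈ P ∧ Disjoint P β ∧ (∀ y ∈ Y, S.Adj v y → y ∉ P) ∧
      cut (S ⊔ res G (insert v U)) P = q := by
  classical
  have hS2 : Lk (S ⊔ res G (insert v U)) β v q := L.Sl.mono le_sup_left
  obtain ⟨y0, hy0, hvy0⟩ := hy
  obtain ⟨P, h1, h2, h3, h4⟩ := tight_avoid hS2 (Y.filter (fun y => S.Adj v y))
    ⟨y0, by simp [hy0, hvy0]⟩ (by
    intro y hy
    rw [mem_filter] at hy
    by_contra hcon
    push Not at hcon
    have hsub : (S ⊔ res G (insert v U)).deleteEdges {s(v, y)} ≤ res G (insert v (U ∪ Y)) := by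
      refine (SimpleGraph.deleteEdges_le _).trans (sup_le L.SX (res_mono ?_))
      exact insert_subset_insert _ subset_union_left
    have hlk : Lk ((S ⊔ res G (insert v U)).deleteEdges {s(v, y)}) β v q := by
      intro P hvP hP
      have h5 := cut_deleteEdge (S ⊔ res G (insert v U)) v y hvP
      have h6 := hS2 P hvP hP
      by_cases hyP : y ∈ P
      · rw [if_pos hyP] at h5
        omega
      · rw [if_neg hyP] at h5
        have h7 := hcon P hvP hP hyP
        omega
    have h8 := L.Smin _ hsub hlk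
    have h9 : nY ((S ⊔ res G (insert v U)).deleteEdges {s(v, y)}) Y < nY S Y := by
      apply nY_delete_lt hy.1 hy.2
      intro a b hab hor
      rcases hab with hab | hab
      · exact hab
      · rcases hor with h | h
        · exact absurd h (L.notY hab.2.1)
        · exact absurd h (L.notY hab.2.2)
    omega)
  refine ⟨P, h1, h2, ?_, h4⟩
  intro y hyY hvy
  exact h3 y (by simp [hyY, hvy])

theorem Lev.nb_split (L : Lev G U Y β v c q S) : nb S v U + nb S v Y = q := by
  classical
  rw [← nb_union v L.dUY, ← L.Sdeg]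
  unfold nb
  congr 1
  ext w
  simp only [mem_filter, mem_union, mem_univ, true_and, and_iff_right_iff_imp]
  intro h
  have := (L.SX h).2.2
  rcases mem_insert.mp this with rfl | h'
  · exact absurd rfl h.ne
  · exact mem_union.mp h'

/-- At least `c` edges of `S` go from `v` to `U`.  Proof: `nb S v U + nb S v Y = q`.  If `nb S v U < c` then `v` has an
`S`-neighbour in `Y` (`c ≤ q`), and `Lev.tight`, `Lev.count` give `q ≥ c + nb S v Y > q`. -/
theorem Lev.start (L : Lev G U Y β v c q S) : c ≤ nb S v U := by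
  classical
  by_contra hlt
  push Not at hlt
  have h1 := L.nb_split
  have h2 := L.cq
  have h3 : ∃ y ∈ Y, S.Adj v y := by
    have : 0 < nb S v Y := by omega
    unfold nb at this
    obtain ⟨y, hy⟩ := card_pos.mp this
    rw [mem_filter] at hy
    exact ⟨y, hy.1, hy.2⟩
  obtain ⟨P, h4, h5, h6, h7⟩ := L.tight h3
  have h8 := L.count h4
  have h9 := L.link P h4 h5
  have h10 : nb S v (Y \ P) = nb S v Y := by
    unfold nb
    congr 1
    ext w
    simp only [mem_filter, mem_sdiff]
    constructor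
    · rintro ⟨⟨a, -⟩, b⟩
      exact ⟨a, b⟩
    · rintro ⟨a, b⟩
      exact ⟨⟨a, h6 w a b⟩, b⟩
  omega

end EK
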