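import Pool.Agent.Lib_MP_436432_co.Step
import Pool.Agent.Lib_MP_436432_co.Level

/-!
# MP_436432_co: neighbours in `U ∪ Y` of a vertex of low level (piece LOW)
-/

set_option autoImplicit false
set_option linter.unusedSectionVars false

namespace EK

open Finset

variable {V : Type} [Fintype V] [DecidableEq V]

/-- `(U, Y)` is a pair with `U` an optimal candidate and `Y` as small as possible such that some vertex is
`(r + 1)`-linked to `β` in `U ∪ Y` -/
structure Pair {W : Type} (T : SimpleGraph W) (G : SimpleGraph V) (k : ℕ) (β : Finset V) (r n : ℕ)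
    (U Y : Finset V) : Prop where
  cand : Cand T G k β r U
  card : U.card = n
  dUY : Disjoint U Y
  lk : ∃ w ∈ U ∪ Y, w ∉ β ∧ Lk (res G (U ∪ Y)) β w (r + 1)
  min : ∀ U' Y' : Finset V, Cand T G k β r U' → U'.card = n →
    (∃ w ∈ U' ∪ Y', w ∉ β ∧ Lk (res G (U' ∪ Y')) β w (r + 1)) → Y.card ≤ Y'.card

variable {W : Type} {T : SimpleGraph W} {G : SimpleGraph V} {k r n : ℕ} {β U Y : Finset V}

namespace LowAux

theorem nb_split {S : SimpleGraph V} (h : S ≤ G) (v : V) (A B : Finset V)
    (hB : ∀ a, a ∈ B ↔ a ∈ A ∧ G.Adj v a ∧ ¬ S.Adj v a) : nb G v A = nb S v A + B.card := by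
  classical
  unfold nb
  rw [← card_union_of_disjoint]
  · congr 1
    ext a
    simp only [mem_filter, mem_union, hB]
    constructor
    · rintro ⟨h1, h2⟩
      by_cases h3 : S.Adj v a
      · exact Or.inl ⟨h1, h3⟩
      · exact Or.inr ⟨h1, h2, h3⟩
    · rintro (⟨h1, h2⟩ | ⟨h1, h2, h3⟩)
      · exact ⟨h1, h h2⟩
      · exact ⟨h1, h2⟩
  · rw [Finset.disjoint_left]
    intro a h1 h2
    exact ((hB a).1 h2).2.2 (mem_filter.1 h1).2

end LowAux

/-- Case `¬ Lk (r + 1)`.  Let `X1 = insert v (U ∪ Y)`, `U1 = insert v U`, `e = |U1| - n ∈ {0, 1}`.  `step` gives `c ≤ r` with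
`Lk (res G U1) β v c`, `nb G v U ≤ c + e`.  Let `q ≤ r` be the exact link value of `v` in `res G X1` (`c ≤ q`, monotonicity) and
`P ⊆ X1` (use `cut_res_inter`) with `v ∈ P`, `P` disjoint from `β`, `cut (res G X1) P = q`.  `S` from `exists_min` for `res G X1`
and `Y`; `Lev G U Y β v c q S` holds.  All edges of `res G X1` leaving `P` are in `S` (`q ≤ cut S P`).  A neighbour
`a ∈ U ∪ Y` of `v` that is not an `S`-neighbour is therefore in `P` (so not in `β`), and isolated in `S`
(`exists_min`).  Let `AU`, `AY` be the sets of these in `U` and in `Y`: `nb G v (U ∪ Y) ≤ q + |AU| + |AY|`.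
`|AU| = nb G v U - nb S v U ≤ c + e - c` by `Lev.start`.
`|AY| ≤ e`: let `K = insert v` of the non isolated vertices of `P`, `Y' = (insert v (Y \ AY)) \ U`.  The vertex `w` of `Pair.lk` is not in `P`
(its link value in `X1` is at least `r + 1 > q`); by `repl` (hstar from `Lk S β v q`, `S ≤ res G ((X1 \ P) ∪ K)`) it is
`(r + 1)`-linked in `(X1 \ P) ∪ K ⊆ U ∪ Y'`, so `|Y| ≤ |Y'| ≤ |Y| - |AY| + e` by `Pair.min`. -/
theorem count_low (E : Ext T G k β r n) (P : Pair T G k β r n U Y) {v : V} (hv : v ∉ β) (hvY : v ∉ Y)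
    (hg : Good T G (insert v U)) (hq : ¬ Lk (res G (insert v (U ∪ Y))) β v (r + 1)) :
    nb G v (U ∪ Y) + 2 * n ≤ r + 2 * (insert v U).card := by
  classical
  have hβU : β ⊆ U := P.cand.1
  have hβY : Disjoint β Y := Finset.disjoint_of_subset_left hβU P.dUY
  obtain ⟨c, hc1, hcr, hc2⟩ := step E P.cand hv hg
  obtain ⟨q, hqr, hq1, hq2⟩ := exists_exact hq
  have hvX1 : v ∈ insert v (U ∪ Y) := mem_insert_self _ _
  obtain ⟨S, hSX, hSl, hSmin, hSdeg, hiso, -⟩ :=
    exists_min (res G (insert v (U ∪ Y))) β Y v q hv hvY hβY hq1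
  have hcq : c ≤ q := by
    by_contra hlt
    apply hq2
    have h1 : Lk (res G (insert v (U ∪ Y))) β v c :=
      hc1.mono (res_mono (insert_subset_insert _ subset_union_left))
    intro Q hQ hQ'
    exact le_trans (by omega) (h1 Q hQ hQ')
  have L : Lev G U Y β v c q S :=
    ⟨P.dUY, hvY, hv, hβU, hc1, hcq, hSX, hSl, hSmin, hSdeg⟩
  obtain ⟨Q, hvQ, hQX, hQβ, hQc⟩ := exists_tight_cut hvX1 hq1 hq2
  have hedge := edges_of_tight hSX (P := Q) (by rw [hQc]; exact hSl Q hvQ hQβ)
  have hSG : S ≤ G := fun a b h => (hSX h).1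
  -- unused neighbours
  have hun : ∀ a ∈ U ∪ Y, G.Adj v a → ¬ S.Adj v a → a ∈ Q ∧ ∀ w, ¬ S.Adj a w := by
    intro a ha h1 h2
    have hH : (res G (insert v (U ∪ Y))).Adj v a := ⟨h1, hvX1, mem_insert_of_mem ha⟩
    have h3 : a ∈ Q := by
      by_contra h4
      exact h2 (hedge v a hvQ h4 hH)
    exact ⟨h3, hiso a hH (fun h => disjoint_left.mp hQβ h3 h) h2⟩
  set AU := U.filter (fun a => G.Adj v a ∧ ¬ S.Adj v a) with hAU
  set AY := Y.filter (fun a => G.Adj v a ∧ ¬ S.Adj v a) with hAY
  have hU := LowAux.nb_split hSG v U AU (fun a => by rw [hAU, mem_filter])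
  have hY := LowAux.nb_split hSG v Y AY (fun a => by rw [hAY, mem_filter])
  have hGU := nb_union (H := G) v P.dUY
  have hsplit := L.nb_split
  have hstart := L.start
  have hAYQ : ∀ a ∈ AY, a ∈ Q ∧ ∀ w, ¬ S.Adj a w := by
    intro a ha
    rw [hAY, mem_filter] at ha
    exact hun a (mem_union_right _ ha.1) ha.2.1 ha.2.2
  have hAYY : AY ⊆ Y := filter_subset _ _
  have hcardY : (Y \ AY).card + AY.card = Y.card := card_sdiff_add_card_eq_card hAYY
  -- the replacement
  set K := Q.filter (fun u => u = v ∨ ∃ w, S.Adj u w) with hK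
  have hvK : v ∈ K := mem_filter.mpr ⟨hvQ, Or.inl rfl⟩
  have hKQ : K ⊆ Q := filter_subset _ _
  have hSle : S ≤ res G ((insert v (U ∪ Y) \ Q) ∪ K) := by
    have hmem : ∀ u w, S.Adj u w → u ∈ (insert v (U ∪ Y) \ Q) ∪ K := by
      intro u w huw
      by_cases huQ : u ∈ Q
      · exact mem_union_right _ (mem_filter.mpr ⟨huQ, Or.inr ⟨w, huw⟩⟩)
      · exact mem_union_left _ (mem_sdiff.mpr ⟨(hSX huw).2.1, huQ⟩)
    intro u w huw
    exact ⟨hSG huw, hmem u w huw, hmem w u huw.symm⟩
  have hstar : ∀ K' : Finset V, K' ⊆ K → v ∈ K' →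
      q ≤ cut (res G ((insert v (U ∪ Y) \ Q) ∪ K)) K' := by
    intro K' hK' hvK'
    exact (hSl K' hvK' (disjoint_of_subset_left (hK'.trans hKQ) hQβ)).trans (cut_mono hSle K')
  obtain ⟨-, -, r3⟩ := repl G hvK hKQ hQX hQβ hQc.le hq1 hstar
  have hYe : Y.card ≤ ((insert v (Y \ AY)) \ U).card := by
    apply P.min U _ P.cand P.card
    obtain ⟨w, hw1, hw2, hw3⟩ := P.lk
    have hw3' : Lk (res G (insert v (U ∪ Y))) β w (r + 1) := hw3.mono (res_mono (subset_insert _ _))
    have hwQ : w ∉ Q := by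
      intro h
      have := hw3' Q h hQβ
      omega
    have hsub : (insert v (U ∪ Y) \ Q) ∪ K ⊆ U ∪ (insert v (Y \ AY)) \ U := by
      intro a ha
      by_cases haU : a ∈ U
      · exact mem_union_left _ haU
      · apply mem_union_right
        rw [mem_sdiff]
        refine ⟨?_, haU⟩
        by_cases hav : a = v
        · rw [hav]; exact mem_insert_self _ _
        · apply mem_insert_of_mem
          rw [mem_sdiff]
          rcases mem_union.mp ha with h | h
          · rw [mem_sdiff, mem_insert, mem_union] at h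
            rcases h with ⟨h | h | h, h'⟩
            · exact absurd h hav
            · exact absurd h haU
            · exact ⟨h, fun h2 => h' (hAYQ a h2).1⟩
          · rw [hK, mem_filter] at h
            have hm := hQX h.1
            rw [mem_insert, mem_union] at hm
            rcases h.2 with h2 | ⟨x, h2⟩
            · exact absurd h2 hav
            · refine ⟨?_, fun h3 => (hAYQ a h3).2 x h2⟩
              rcases hm with h3 | h3 | h3
              · exact absurd h3 hav
              · exact absurd h3 haU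
              · exact h3
    refine ⟨w, hsub (mem_union_left _ (mem_sdiff.mpr ⟨mem_insert_of_mem hw1, hwQ⟩)), hw2, ?_⟩
    exact (r3 w (r + 1) hwQ hw3').mono (res_mono hsub)
  have hUn := P.card
  by_cases hvU : v ∈ U
  · have h1 : insert v U = U := insert_eq_of_mem hvU
    rw [h1] at hc2 ⊢
    have h2 : ((insert v (Y \ AY)) \ U).card ≤ (Y \ AY).card := by
      apply card_le_card
      intro a ha
      rw [mem_sdiff, mem_insert] at ha
      rcases ha with ⟨ha | ha, ha2⟩
      · rw [ha] at ha2; exact absurd hvU ha2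
      · exact ha
    omega
  · have h1 : (insert v U).card = U.card + 1 := card_insert_of_notMem hvU
    have h2 : ((insert v (Y \ AY)) \ U).card ≤ (Y \ AY).card + 1 :=
      (card_le_card sdiff_subset).trans (card_insert_le _ _)
    omega

end EK
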