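import Pool.Agent.Lib_MP_436432_co.Defs

/-!
# MP_436432_co: elementary facts on cuts (piece CUT)
-/

set_option autoImplicit false
set_option linter.unusedSectionVars false

namespace EK

open Finset

variable {V : Type} [Fintype V] [DecidableEq V]

theorem cut_mono {H H' : SimpleGraph V} (h : H ≤ H') (P : Finset V) : cut H P ≤ cut H' P := by
  unfold cut
  apply card_le_card
  intro p hp
  simp only [mem_filter, mem_univ, true_and] at hp ⊢
  exact ⟨hp.1, hp.2.1, h hp.2.2⟩

theorem res_mono {G : SimpleGraph V} {X Y : Finset V} (h : X ⊆ Y) : res G X ≤ res G Y := by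
  intro a b hab
  exact ⟨hab.1, h hab.2.1, h hab.2.2⟩

theorem Lk.mono {H H' : SimpleGraph V} (h : H ≤ H') {β : Finset V} {v : V} {q : ℕ}
    (hl : Lk H β v q) : Lk H' β v q := fun P h1 h2 => (hl P h1 h2).trans (cut_mono h P)

theorem Ins.mono {H H' : SimpleGraph V} (h : H ≤ H') {β : Finset V} {k : ℕ}
    (hl : Ins H β k) : Ins H' β k := fun P h1 h2 => (hl P h1 h2).trans (cut_mono h P)

theorem nb_mono {H H' : SimpleGraph V} (h : H ≤ H') (a : V) {A B : Finset V} (hAB : A ⊆ B) :
    nb H a A ≤ nb H' a B := by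
  unfold nb
  apply card_le_card
  intro w hw
  simp only [mem_filter] at hw ⊢
  exact ⟨hAB hw.1, h hw.2⟩

theorem nb_union {H : SimpleGraph V} (a : V) {A B : Finset V} (hAB : Disjoint A B) :
    nb H a (A ∪ B) = nb H a A + nb H a B := by
  classical
  unfold nb
  rw [filter_union, card_union_of_disjoint]
  exact disjoint_filter_filter hAB

theorem nb_insert_self {H : SimpleGraph V} (a : V) (A : Finset V) :
    nb H a (insert a A) = nb H a A := by
  unfold nb
  congr 1
  ext w
  simp only [mem_filter, mem_insert]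
  constructor
  · rintro ⟨rfl | h, h'⟩
    · exact absurd rfl h'.ne
    · exact ⟨h, h'⟩
  · rintro ⟨h, h'⟩
    exact ⟨Or.inr h, h'⟩

theorem cut_congr {H H' : SimpleGraph V} {P P' : Finset V}
    (h : ∀ u w, (u ∈ P ∧ w ∉ P ∧ H.Adj u w) ↔ (u ∈ P' ∧ w ∉ P' ∧ H'.Adj u w)) :
    cut H P = cut H' P' := by
  unfold cut
  congr 1
  ext p
  simp only [mem_filter, mem_univ, true_and]
  exact h p.1 p.2

/-- only the part of `P` inside `X` matters for `res G X` -/
theorem cut_res_inter (G : SimpleGraph V) (X P : Finset V) :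
    cut (res G X) P = cut (res G X) (P ∩ X) := by
  apply cut_congr
  intro u w
  simp only [mem_inter, res]
  constructor
  · rintro ⟨h1, h2, h3, h4, h5⟩
    exact ⟨⟨h1, h4⟩, fun h => h2 h.1, h3, h4, h5⟩
  · rintro ⟨⟨h1, h1'⟩, h2, h3, h4, h5⟩
    exact ⟨h1, fun h => h2 ⟨h, h5⟩, h3, h4, h5⟩

theorem cut_compl (H : SimpleGraph V) (P : Finset V) : cut H Pᶜ = cut H P := by
  unfold cut
  refine card_bij' (fun p _ => (p.2, p.1)) (fun p _ => (p.2, p.1)) ?_ ?_ ?_ ?_
  · intro p hp
    simp only [mem_filter, mem_univ, true_and, mem_compl, not_not] at hp ⊢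
    exact ⟨hp.2.1, hp.1, hp.2.2.symm⟩
  · intro p hp
    simp only [mem_filter, mem_univ, true_and, mem_compl, not_not] at hp ⊢
    exact ⟨hp.2.1, hp.1, hp.2.2.symm⟩
  · intro p _
    rfl
  · intro p _
    rfl

open Classical in
theorem cut_sum (H : SimpleGraph V) (P : Finset V) :
    cut H P = ∑ p : V × V, if p.1 ∈ P ∧ p.2 ∉ P ∧ H.Adj p.1 p.2 then 1 else 0 := by
  unfold cut
  rw [card_filter]

/-- submodularity -/
theorem cut_sub (H : SimpleGraph V) (P Q : Finset V) :
    cut H (P ∩ Q) + cut H (P ∪ Q) ≤ cut H P + cut H Q := by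
  classical
  rw [cut_sum, cut_sum, cut_sum, cut_sum, ← sum_add_distrib, ← sum_add_distrib]
  apply sum_le_sum
  rintro ⟨u, w⟩ _
  simp only [mem_inter, mem_union]
  by_cases h : H.Adj u w <;> by_cases h1 : u ∈ P <;> by_cases h2 : u ∈ Q <;> by_cases h3 : w ∈ P <;>
    by_cases h4 : w ∈ Q <;> simp [h, h1, h2, h3, h4]

/-- submodularity, strict form: an edge between `P \ Q` and `Q \ P` gains `2` -/
theorem cut_sub_two (H : SimpleGraph V) {P Q : Finset V} {a c : V} (haP : a ∈ P) (haQ : a ∉ Q)
    (hcQ : c ∈ Q) (hcP : c ∉ P) (hac : H.Adj a c) :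
    cut H (P ∩ Q) + cut H (P ∪ Q) + 2 ≤ cut H P + cut H Q := by
  classical
  have hne : (a, c) ≠ (c, a) := by
    intro h
    have := (Prod.mk.injEq _ _ _ _).mp h
    exact hac.ne this.1
  have hsum : ∑ p : V × V, (if p = (a, c) ∨ p = (c, a) then 1 else 0) = 2 := by
    rw [← card_filter]
    have : (univ.filter (fun p : V × V => p = (a, c) ∨ p = (c, a))) = {(a, c), (c, a)} := by
      ext p
      simp
    rw [this, card_pair hne]
  rw [cut_sum, cut_sum, cut_sum, cut_sum, ← sum_add_distrib, ← sum_add_distrib, ← hsum,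
    ← sum_add_distrib]
  apply sum_le_sum
  rintro ⟨u, w⟩ _
  by_cases he : (u, w) = (a, c) ∨ (u, w) = (c, a)
  · rw [if_pos he]
    rcases he with he | he
    · obtain ⟨rfl, rfl⟩ := (Prod.mk.injEq _ _ _ _).mp he
      simp [haP, haQ, hcQ, hcP, hac]
    · obtain ⟨rfl, rfl⟩ := (Prod.mk.injEq _ _ _ _).mp he
      simp [haP, haQ, hcQ, hcP, hac.symm]
  · rw [if_neg he, add_zero]
    simp only [mem_inter, mem_union]
    by_cases h : H.Adj u w <;> by_cases h1 : u ∈ P <;> by_cases h2 : u ∈ Q <;>
      by_cases h3 : w ∈ P <;> by_cases h4 : w ∈ Q <;> simp [h, h1, h2, h3, h4]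

/-- posimodularity -/
theorem cut_posi (H : SimpleGraph V) (P Q : Finset V) :
    cut H (P \ Q) + cut H (Q \ P) ≤ cut H P + cut H Q := by
  have h := cut_sub H P Qᶜ
  rw [cut_compl] at h
  have h1 : P ∩ Qᶜ = P \ Q := by
    ext x
    simp
  have h2 : (P ∪ Qᶜ)ᶜ = Q \ P := by
    ext x
    simp [and_comm]
  rw [h1, ← cut_compl H (P ∪ Qᶜ), h2] at h
  exact h

theorem cut_singleton (H : SimpleGraph V) (v : V) : cut H {v} = nb H v univ := by
  unfold cut nb
  refine card_bij' (fun p _ => p.2) (fun w _ => (v, w)) ?_ ?_ ?_ ?_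
  · intro p hp
    simp only [mem_filter, mem_univ, true_and, mem_singleton] at hp ⊢
    rw [← hp.1]
    exact hp.2.2
  · intro w hw
    simp only [mem_filter, mem_univ, true_and, mem_singleton] at hw ⊢
    exact ⟨hw.ne', hw⟩
  · intro p hp
    simp only [mem_filter, mem_univ, true_and, mem_singleton] at hp
    exact Prod.ext hp.1.symm rfl
  · intro w _
    rfl

theorem nb_le_cut (H : SimpleGraph V) {P A : Finset V} {v : V} (hv : v ∈ P) (hA : Disjoint A P) :
    nb H v A ≤ cut H P := by
  unfold cut nb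
  apply card_le_card_of_injOn (fun w => (v, w))
  · intro w hw
    simp only [mem_coe, mem_filter, mem_univ, true_and] at hw ⊢
    exact ⟨hv, disjoint_left.mp hA hw.1, hw.2⟩
  · intro w _ w' _ h
    exact ((Prod.mk.injEq _ _ _ _).mp h).2

/-- one more edge leaving `P` than the ones from `v` -/
theorem nb_succ_le_cut (H : SimpleGraph V) {P A : Finset V} {v c a : V} (hv : v ∈ P)
    (hA : Disjoint A P) (hc : c ∈ P) (hcv : c ≠ v) (ha : a ∉ P) (hca : H.Adj c a) :
    nb H v A + 1 ≤ cut H P := by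
  classical
  unfold cut nb
  rw [← card_image_of_injective (A.filter (fun w => H.Adj v w)) (f := fun w => (v, w))
    (fun w w' h => ((Prod.mk.injEq _ _ _ _).mp h).2)]
  rw [← card_insert_of_notMem (s := (A.filter (fun w => H.Adj v w)).image (fun w => (v, w)))
    (a := (c, a))]
  · apply card_le_card
    intro p hp
    simp only [mem_insert, mem_image, mem_filter] at hp
    simp only [mem_filter, mem_univ, true_and]
    rcases hp with rfl | ⟨w, hw, rfl⟩
    · exact ⟨hc, ha, hca⟩
    · exact ⟨hv, disjoint_left.mp hA hw.1, hw.2⟩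
  · intro h
    simp only [mem_image, mem_filter] at h
    obtain ⟨w, -, hw⟩ := h
    exact hcv ((Prod.mk.injEq _ _ _ _).mp hw).1.symm

/-- adding to `P` a vertex all of whose neighbours are in `P` -/
theorem cut_insert_of_all (H : SimpleGraph V) {P : Finset V} {a : V} (ha : a ∉ P)
    (h : ∀ c, H.Adj a c → c ∈ P) : cut H (insert a P) + nb H a univ = cut H P := by
  classical
  have hd : cut H P = (univ.filter (fun p : V × V => p.1 ∈ insert a P ∧ p.2 ∉ insert a P ∧
      H.Adj p.1 p.2) ∪ (univ.filter (fun w => H.Adj a w)).image (fun w => (w, a))).card := by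
    unfold cut
    congr 1
    ext ⟨u, w⟩
    simp only [mem_filter, mem_univ, true_and, mem_union, mem_image, mem_insert, not_or,
      Prod.mk.injEq]
    constructor
    · rintro ⟨h1, h2, h3⟩
      by_cases hw : w = a
      · right
        subst hw
        exact ⟨u, h3.symm, rfl, rfl⟩
      · left
        exact ⟨Or.inr h1, ⟨hw, h2⟩, h3⟩
    · rintro (⟨h1, ⟨h2, h3⟩, h4⟩ | ⟨x, h1, h2, h3⟩)
      · rcases h1 with rfl | h1
        · exact absurd (h w h4) h3
        · exact ⟨h1, h3, h4⟩
      · subst h2 h3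
        exact ⟨h _ h1, ha, h1.symm⟩
  rw [hd, card_union_of_disjoint, card_image_of_injective]
  · rfl
  · intro w w' hw
    exact ((Prod.mk.injEq _ _ _ _).mp hw).1
  · rw [disjoint_left]
    rintro ⟨u, w⟩ h1 h2
    simp only [mem_filter, mem_univ, true_and, mem_insert, not_or] at h1
    simp only [mem_image, mem_filter, mem_univ, true_and, Prod.mk.injEq] at h2
    obtain ⟨x, -, -, h3⟩ := h2
    exact h1.2.1.1 h3.symm

/-- removing from `P` a vertex none of whose neighbours is in `P` -/
theorem cut_erase_of_none (H : SimpleGraph V) {P : Finset V} {a : V} (ha : a ∈ P)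
    (h : ∀ c, H.Adj a c → c ∉ P) : cut H (P.erase a) + nb H a univ = cut H P := by
  have h1 := cut_insert_of_all H (P := Pᶜ) (a := a) (by simpa using ha) (by
    intro c hc
    simpa using h c hc)
  rw [cut_compl] at h1
  have h2 : insert a Pᶜ = (P.erase a)ᶜ := by
    ext x
    simp only [mem_insert, mem_compl, mem_erase, not_and]
    tauto
  rw [h2, cut_compl] at h1
  exact h1

end EK
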