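import Mathlib
import Pool.Agent.Lib_MP_f6e057_co.Exchange

/-!
# MP_436432_co: edge-connectivity keeping trees, definitions

All graphs are simple graphs on a finite type.  Edge cuts are counted by ordered pairs `(u, w)` with
`u ∈ P`, `w ∉ P`, so that every edge leaving `P` is counted exactly once.
-/

set_option autoImplicit false

namespace EK

open Finset

section

variable {V : Type} [Fintype V] [DecidableEq V]

open Classical in
/-- number of edges of `H` leaving `P` -/
noncomputable def cut (H : SimpleGraph V) (P : Finset V) : ℕ :=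
  (univ.filter (fun p : V × V => p.1 ∈ P ∧ p.2 ∉ P ∧ H.Adj p.1 p.2)).card

open Classical in
/-- number of neighbours of `a` in `A` -/
noncomputable def nb (H : SimpleGraph V) (a : V) (A : Finset V) : ℕ :=
  (A.filter (fun w => H.Adj a w)).card

open Classical in
/-- (twice) the number of edges of `H` that touch `Y` -/
noncomputable def nY (H : SimpleGraph V) (Y : Finset V) : ℕ :=
  (univ.filter (fun p : V × V => H.Adj p.1 p.2 ∧ (p.1 ∈ Y ∨ p.2 ∈ Y))).card

/-- `H` restricted to `X` (all vertices outside `X` are isolated) -/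
def res (H : SimpleGraph V) (X : Finset V) : SimpleGraph V where
  Adj u w := H.Adj u w ∧ u ∈ X ∧ w ∈ X
  symm := ⟨fun _ _ h => ⟨h.1.symm, h.2.2, h.2.1⟩⟩
  loopless := ⟨fun _ h => h.1.ne rfl⟩

/-- every cut separating `v` from `β` has at least `q` edges -/
def Lk (H : SimpleGraph V) (β : Finset V) (v : V) (q : ℕ) : Prop :=
  ∀ P : Finset V, v ∈ P → Disjoint P β → q ≤ cut H P

/-- every cut separating two elements of `β` has at least `k` edges -/
def Ins (H : SimpleGraph V) (β : Finset V) (k : ℕ) : Prop :=
  ∀ P : Finset V, (∃ b ∈ β, b ∈ P) → (∃ b ∈ β, b ∉ P) → k ≤ cut H P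

variable {W : Type} (T : SimpleGraph W) (G : SimpleGraph V)

/-- some copy of `T` in `G` avoids `X` -/
def Good (X : Finset V) : Prop :=
  ∃ g : W → V, Pool.Agent.Lib_MP_f6e057_co.Exch.IsCopy T G g ∧ ∀ a, g a ∉ X

/-- `X` is a candidate of level `r`: it contains `β`, `β` is inseparable inside `X`, a copy of `T`
avoids `X`, and some further vertex of `X` is `r`-linked to `β` inside `X` -/
def Cand (k : ℕ) (β : Finset V) (r : ℕ) (X : Finset V) : Prop :=
  β ⊆ X ∧ Ins (res G X) β k ∧ Good T G X ∧ ∃ x ∈ X, x ∉ β ∧ Lk (res G X) β x r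

/-- `r` is the largest level and `n` a lower bound for the size of a candidate -/
structure Ext (k : ℕ) (β : Finset V) (r n : ℕ) : Prop where
  top : ∀ X, β ⊆ X → Ins (res G X) β k → Good T G X → ∀ v ∈ X, v ∉ β → ¬ Lk (res G X) β v (r + 1)
  min : ∀ X, Cand T G k β r X → n ≤ X.card

end

end EK
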