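import Pool.Agent.Lib_MP_436432_co.Cut
import Pool.Agent.Lib_MP_f6e057_co.AC.EmbedIn

/-!
# MP_436432_co: the case `k = 1` with the exact bound (piece KONE)
-/

set_option autoImplicit false
set_option linter.unusedSectionVars false

namespace EK

open Finset

variable {V : Type} [Fintype V] [DecidableEq V] {W : Type} [Fintype W] {T : SimpleGraph W}
  {G : SimpleGraph V}

/-- an edge leaving `P` -/
theorem KOne.one_le_cut {H : SimpleGraph V} {P : Finset V} {u w : V} (hu : u ∈ P) (hw : w ∉ P)
    (h : H.Adj u w) : 1 ≤ cut H P := by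
  classical
  unfold cut
  exact card_pos.mpr ⟨(u, w), mem_filter.mpr ⟨mem_univ _, hu, hw, h⟩⟩

/-- adding to `β` a vertex with a neighbour in `β` -/
theorem KOne.ins_insert {β : Finset V} (hβ : Ins (res G β) β 1) {z w : V} (hw : w ∈ β)
    (hzw : G.Adj z w) : Ins (res G (insert z β)) (insert z β) 1 := by
  rintro P ⟨b1, hb1, hb1P⟩ ⟨b2, hb2, hb2P⟩
  have hzm : z ∈ insert z β := mem_insert_self z β
  have hwm : w ∈ insert z β := mem_insert_of_mem hw
  by_cases h1 : ∃ b ∈ β, b ∈ P
  · by_cases h2 : ∃ b ∈ β, b ∉ P
    · exact (hβ P h1 h2).trans (cut_mono (res_mono (subset_insert z β)) P)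
    · push Not at h2
      have hb2z : b2 = z := by
        rcases mem_insert.1 hb2 with h | h
        · exact h
        · exact absurd (h2 b2 h) hb2P
      subst hb2z
      exact KOne.one_le_cut (h2 w hw) hb2P ⟨hzw.symm, hwm, hzm⟩
  · push Not at h1
    have hb1z : b1 = z := by
      rcases mem_insert.1 hb1 with h | h
      · exact h
      · exact absurd hb1P (h1 b1 h)
    subst hb1z
    exact KOne.one_le_cut hb1P (h1 w hw) ⟨hzw, hzm, hwm⟩

/-- Proof.  There is a set `β` that is nonempty, with `Ins (res G β) β 1` and `Good T G β` (a single vertex `v`, a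
copy avoiding it exists by `AC.embed_in` in `univ.erase v`: every vertex there has at least `|W| - 1` neighbours
there; `univ.erase v` is not empty since `v` has a neighbour, `|W| ≥ 1`).  Take one with `|β|` maximal and a copy `f`
avoiding `β`.
(1) If `z ∉ β` and `Good T G (insert z β)` then `nb G z β = 0`: otherwise `insert z β` is a larger set with the same
properties (`Ins (res G (insert z β)) (insert z β) 1`: a set `P` splitting `insert z β` either splits `β`, or contains one of `z`, `β` and
misses the other, and then the edge from `z` to `β` leaves it).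
(2) Let `Z` be the set of `z ∉ β` with `¬ Good T G (insert z β)`.  If `Z` is not empty and more than `|W|` vertices are outside
`β`, then `Exch.exchange` for the graph induced on the complement of `β` (every vertex outside `β` and `Z` has all its
at least `|W|` neighbours there by (1)) gives a copy missing some `z ∈ Z`: contradiction.  If at most `|W|` vertices
are outside `β`, then the image of `f` is the complement of `β` and `f` is as required.  If `Z` is empty, then by (1) no edge
leaves `β`, so `hG` gives `β = univ`, but the image of `f` is not empty. -/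
theorem core_one (hT : T.IsTree) (hδ : ∀ v, Fintype.card W ≤ nb G v univ)
    (hG : ∀ P : Finset V, P.Nonempty → P ≠ univ → 1 ≤ cut G P) [Nonempty V] :
    ∃ f : W → V, Pool.Agent.Lib_MP_f6e057_co.Exch.IsCopy T G f ∧
      Ins (res G (univ.image f)ᶜ) (univ.image f)ᶜ 1 := by
  classical
  obtain ⟨w0⟩ := hT.connected.nonempty
  have hW : 1 ≤ Fintype.card W := Fintype.card_pos_iff.2 ⟨w0⟩
  let Pr : Finset V → Prop := fun β => β.Nonempty ∧ Ins (res G β) β 1 ∧ Good T G β
  -- a single vertex
  have hinit : ∃ β, Pr β := by
    obtain ⟨v⟩ := ‹Nonempty V›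
    refine ⟨{v}, singleton_nonempty v, ?_, ?_⟩
    · rintro P ⟨b1, hb1, hb1P⟩ ⟨b2, hb2, hb2P⟩
      rw [mem_singleton] at hb1 hb2
      subst hb1
      subst hb2
      exact absurd hb1P hb2P
    · have hO : (univ.erase v).Nonempty := by
        have h1 := hδ v
        unfold nb at h1
        obtain ⟨u, hu⟩ := card_pos.1 (lt_of_lt_of_le (by omega) h1)
        rw [mem_filter] at hu
        exact ⟨u, mem_erase.2 ⟨hu.2.ne', mem_univ u⟩⟩
      obtain ⟨g, hg, hgO⟩ := Pool.Agent.Lib_MP_f6e057_co.AC.embed_in G hT hO (by
        intro u _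
        have h1 := hδ u
        unfold nb at h1
        unfold Pool.Agent.Lib_MP_f6e057_co.AC.dg
        have h2 : (univ.filter fun w => G.Adj u w) ⊆
            insert v ((univ.erase v).filter fun w => G.Adj u w) := by
          intro w hw
          rw [mem_filter] at hw
          rw [mem_insert, mem_filter, mem_erase]
          by_cases h : w = v
          · exact Or.inl h
          · exact Or.inr ⟨⟨h, mem_univ w⟩, hw.2⟩
        have h3 := (card_le_card h2).trans (card_insert_le _ _)
        exact h1.trans h3)
      exact ⟨g, hg, fun a ha => (mem_erase.1 (hgO a)).1 (mem_singleton.1 ha)⟩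
  obtain ⟨β0, hβ0⟩ := hinit
  obtain ⟨β, hβm, hmax⟩ := exists_max_image (univ.filter Pr) card
    ⟨β0, mem_filter.2 ⟨mem_univ _, hβ0⟩⟩
  obtain ⟨hne, hins, f, hf, hfβ⟩ : Pr β := (mem_filter.1 hβm).2
  -- (1)
  have h1 : ∀ z, z ∉ β → Good T G (insert z β) → ∀ w ∈ β, ¬ G.Adj z w := by
    intro z hz hgood w hw hzw
    have h2 : Pr (insert z β) := ⟨insert_nonempty z β, KOne.ins_insert hins hw hzw, hgood⟩
    have h3 := hmax _ (mem_filter.2 ⟨mem_univ _, h2⟩)
    rw [card_insert_of_notMem hz] at h3
    omega
  by_cases hcard : Fintype.card W < βᶜ.card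
  swap
  · -- the image of `f` is the complement of `β`
    have hsub : univ.image f ⊆ βᶜ := by
      intro x hx
      obtain ⟨a, -, rfl⟩ := mem_image.1 hx
      exact mem_compl.2 (hfβ a)
    have hc : (univ.image f).card = Fintype.card W := by
      rw [card_image_of_injective _ hf.1, card_univ]
    have himg : univ.image f = βᶜ := eq_of_subset_of_card_le hsub (by omega)
    refine ⟨f, hf, ?_⟩
    rw [himg, compl_compl]
    exact hins
  · exfalso
    by_cases hZ : ∃ z, z ∉ β ∧ ¬ Good T G (insert z β)
    · let S : Set V := {v | v ∉ β}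
      let G' : SimpleGraph S := G.induce S
      let Z : Finset S := univ.filter fun z => ¬ Good T G (insert z.1 β)
      obtain ⟨z0, hz0, hz0'⟩ := hZ
      have hZne : Z.Nonempty := ⟨⟨z0, hz0⟩, mem_filter.2 ⟨mem_univ _, hz0'⟩⟩
      have hcardS : Fintype.card S = βᶜ.card := by
        rw [← Fintype.card_coe]
        apply Fintype.card_congr
        exact Equiv.subtypeEquivRight (fun v => by simp [S])
      have hdegS : ∀ v : S, v ∉ Z → Fintype.card W ≤ G'.degree v := by
        intro v hv
        have hg : Good T G (insert v.1 β) := by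
          by_contra h2
          exact hv (mem_filter.2 ⟨mem_univ _, h2⟩)
        have h2 := h1 v.1 v.2 hg
        have h3 := hδ v.1
        unfold nb at h3
        have h4 : (univ.filter fun w => G.Adj v.1 w) ⊆
            (G'.neighborFinset v).map (Function.Embedding.subtype _) := by
          intro w hw
          rw [mem_filter] at hw
          rw [mem_map]
          exact ⟨⟨w, fun hwβ => h2 w hwβ hw.2⟩, (SimpleGraph.mem_neighborFinset _ _ _).2 hw.2, rfl⟩
        have h5 := card_le_card h4
        rw [card_map, SimpleGraph.card_neighborFinset_eq_degree] at h5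
        exact h3.trans h5
      let f' : W → S := fun a => ⟨f a, hfβ a⟩
      have hf' : Pool.Agent.Lib_MP_f6e057_co.Exch.IsCopy T G' f' := by
        refine ⟨fun a b hab => hf.1 (congrArg Subtype.val hab), fun a b hab => ?_⟩
        exact hf.2 a b hab
      obtain ⟨g', hg', z, hzZ, hz⟩ := Pool.Agent.Lib_MP_f6e057_co.Exch.exchange hT hZne hdegS
        (by rw [hcardS]; exact hcard) hf'
      have hzg := (mem_filter.1 hzZ).2
      apply hzg
      refine ⟨fun a => (g' a).1, ⟨fun a b hab => hg'.1 (Subtype.ext hab),
        fun a b hab => hg'.2 a b hab⟩, fun a ha => ?_⟩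
      rcases mem_insert.1 ha with h | h
      · exact hz a (Subtype.ext h)
      · exact (g' a).2 h
    · push Not at hZ
      have hno : ∀ z, z ∉ β → ∀ w ∈ β, ¬ G.Adj z w := fun z hz => h1 z hz (hZ z hz)
      have hcut : cut G β = 0 := by
        unfold cut
        rw [card_eq_zero, filter_eq_empty_iff]
        rintro ⟨u, w⟩ - ⟨hu, hw, huw⟩
        exact hno w hw u hu huw.symm
      by_cases huniv : β = univ
      · exact hfβ w0 (by rw [huniv]; exact mem_univ _)
      · have := hG β hne huniv
        omega

end EK
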