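import Pool.Agent.Lib_MP_436432_co.Core
import Pool.Agent.Lib_MP_436432_co.KOne
import Pool.Agent.Lib_MP_436432_co.Conv

/-!
# MP_436432_co: the main theorem
-/

set_option autoImplicit false
set_option linter.unusedSectionVars false

namespace EK

open Finset

theorem main {V W : Type} [Finite V] [Finite W] (G : SimpleGraph V) (T : SimpleGraph W)
    (hT : T.IsTree) (k : ℕ) (hk : 1 ≤ k) (hG : EdgeConn k G)
    (hd : ∀ v, k + Nat.card W ≤ (G.neighborSet v).ncard + (if k = 1 then 1 else 0)) :
    ∃ φ : W ↪ V, (∀ a b, T.Adj a b → G.Adj (φ a) (φ b)) ∧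
      EdgeConn k (G.induce (Set.range φ)ᶜ) := by
  classical
  have := Fintype.ofFinite V
  have := Fintype.ofFinite W
  have hne : Nonempty V := (hG.2 ∅ (by rw [card_empty]; omega)).nonempty
  have hnb : ∀ v, (G.neighborSet v).ncard = nb G v univ := by
    intro v
    unfold nb
    rw [← Set.ncard_coe_finset]
    congr 1
    ext w
    simp
  have hm : 1 ≤ Fintype.card W := Fintype.card_pos_iff.mpr hT.connected.nonempty
  have hcut := cut_of_conn hG
  have hcard : ∀ v : V, nb G v univ + 1 ≤ Fintype.card V := by
    intro v
    unfold nb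
    have h1 : (univ.filter (fun w => G.Adj v w)) ⊆ univ.erase v := by
      intro w hw
      rw [mem_filter] at hw
      rw [mem_erase]
      exact ⟨hw.2.ne', mem_univ _⟩
    have h2 := card_le_card h1
    rw [card_erase_of_mem (mem_univ v), card_univ] at h2
    have h3 : 0 < Fintype.card V := Fintype.card_pos
    have h4 := Nat.add_le_of_le_sub h3 h2
    exact h4
  have key : ∃ f : W → V, Pool.Agent.Lib_MP_f6e057_co.Exch.IsCopy T G f ∧
      Ins (res G (univ.image f)ᶜ) (univ.image f)ᶜ k := by
    by_cases h1 : k = 1
    · subst h1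
      apply core_one hT
      · intro v
        have := hd v
        rw [hnb, if_pos rfl, Nat.card_eq_fintype_card] at this
        omega
      · exact hcut
    · apply core hT hk
      · intro v
        have := hd v
        rw [hnb, if_neg h1, Nat.card_eq_fintype_card] at this
        omega
      · exact hcut
  obtain ⟨f, ⟨hf1, hf2⟩, hf3⟩ := key
  refine ⟨⟨f, hf1⟩, hf2, ?_⟩
  have hset : (Set.range (⟨f, hf1⟩ : W ↪ V))ᶜ = (((univ.image f)ᶜ : Finset V) : Set V) := by
    ext x
    simp
  rw [hset]
  have hc : ((univ.image f)ᶜ : Finset V).card + Fintype.card W = Fintype.card V := by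
    rw [card_compl, card_image_of_injective _ hf1, card_univ]
    have := Fintype.card_le_of_injective f hf1
    omega
  obtain ⟨v⟩ := hne
  have h4 := hd v
  have h5 := hcard v
  rw [hnb, Nat.card_eq_fintype_card] at h4
  apply conn_of_cut
  · rw [← card_pos]
    split_ifs at h4 <;> omega
  · by_cases h1 : k = 1
    · right
      omega
    · left
      rw [if_neg h1] at h4
      omega
  · exact hf3

end EK
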