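import Pool.Agent.Lib_MP_436432_co.Cut

/-!
# MP_436432_co: cost-minimal linked edge sets (piece MIN)

Let `H` be a graph in which every cut separating `v` from `β` has at least `q` edges.  Among all
subgraphs `S ≤ H` with the same property choose one that minimises first the number of edges
touching `Y` and then the number of all edges (cost `nY * (N + 1) + E`, `N = |V × V|`,
`E` = number of ordered adjacent pairs).

Facts.  Call `P` tight if `v ∈ P`, `P` misses `β` and `cut S P = q`.  Tight sets are closed under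
`∩` and `∪` (`cut_sub`).
(A0) Every edge `ab` of `S` is separated by a tight set (otherwise `S` minus `ab` is cheaper).
(A1) `nb S v univ = q`: `≥` is the cut `{v}`; for `≤` intersect the tight sets `P_a`, `a ∉ P_a`, over all
`S`-neighbours `a` of `v` (if there is one): this set is tight and all edges of `S` at `v` leave it.
(A2) If `va` is an edge of `H`, not of `S`, `a ∉ β`, then `a` is isolated in `S`.  Suppose not.
 (i) some tight set contains `a`: otherwise for every `S`-neighbour `c` of `a` the tight set separating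
 `a` and `c` contains `c` and not `a`; the union `P` of these is tight, and `cut_insert_of_all` gives
 `cut S (insert a P) < q`.
 (ii) let `Pa` be the intersection of all tight sets containing `a`.
 (iii) some `S`-neighbour `c` of `a` is in `Pa`: otherwise `cut_erase_of_none` gives `cut S (Pa.erase a) < q`.
 (iv) a tight set separating `a` and `c` contains `c` and not `a` (by minimality of `Pa`).  Let `Pc` be the
 intersection of all tight sets containing `c`; so `a ∉ Pc ⊆ Pa`.  `c ≠ v`.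
 (v) some `S`-neighbour `b` of `v` is in `Pc`: otherwise `nb_succ_le_cut` gives `cut S Pc ≥ q + 1`.
 (vi) `S2 = S + va - vb - ca` satisfies `Lk S2 β v q`: let `v ∈ P`, `P` disjoint from `β`;
 `cut S2 P = cut S P + [a ∉ P] - [b ∉ P] - [P separates a, c]`.  If `a ∉ P`: a problem only if `cut S P = q`,
 `c ∈ P`, `b ∉ P`, but then `P ⊇ Pc ∋ b`.  If `a ∈ P`: for `cut S P = q` we have `P ⊇ Pa ⊇ Pc`, so `b, c ∈ P`; for
 `cut S P = q + 1` a problem only if `b, c ∉ P`, but then `cut_sub_two` with `P`, `Pc` and the edge `ac`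
 gives `2 q + 2 ≤ (q + 1) + q`.
 (vii) `S2` is cheaper: the number of edges touching `Y` does not increase (`v ∉ Y`; if `a ∈ Y` then `ca` touches
 `Y` too) and there is one edge less.
(A3) If `nb H v β < q` then every edge `va` of `H` with `a ∈ β` is in `S`.  Suppose not.  There is an
`S`-neighbour `b ∉ β` of `v` (`nb S v univ = q > nb H v β`).  `S1 = S + va - vb` satisfies `Lk` (`a ∉ P` always) and is
not more expensive (`a ∉ Y`), so `S1` is also minimal, and by (A2) for `S1`: `b` is isolated in `S1`, so `vb` is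
the only edge of `S` at `b`.  But a tight set `P` separating `v` and `b` then has `cut S (insert b P) = q - 1`.
-/

set_option autoImplicit false
set_option linter.unusedSectionVars false

namespace EK

open Finset

variable {V : Type} [Fintype V] [DecidableEq V]

namespace MinAux

open Classical in
/-- number of ordered adjacent pairs with a property -/
noncomputable def cnt (S : SimpleGraph V) (φ : V × V → Prop) : ℕ :=
  (univ.filter (fun p : V × V => S.Adj p.1 p.2 ∧ φ p)).card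

open Classical in
/-- indicator of a proposition -/
noncomputable def ind (p : Prop) : ℕ := if p then 1 else 0

lemma ind_pos {p : Prop} (h : p) : ind p = 1 := by simp [ind, h]

lemma ind_neg {p : Prop} (h : ¬ p) : ind p = 0 := by simp [ind, h]

lemma ind_le_one (p : Prop) : ind p ≤ 1 := by
  unfold ind
  split_ifs <;> simp

/-- delete the edge `ab` -/
def del (S : SimpleGraph V) (a b : V) : SimpleGraph V where
  Adj u w := S.Adj u w ∧ ¬ (u = a ∧ w = b) ∧ ¬ (u = b ∧ w = a)
  symm := ⟨fun _ _ h => ⟨h.1.symm, fun h1 => h.2.2 ⟨h1.2, h1.1⟩, fun h1 => h.2.1 ⟨h1.2, h1.1⟩⟩⟩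
  loopless := ⟨fun _ h => h.1.ne rfl⟩

/-- add the edge `ab` -/
def add (S : SimpleGraph V) (a b : V) (hab : a ≠ b) : SimpleGraph V where
  Adj u w := S.Adj u w ∨ (u = a ∧ w = b) ∨ (u = b ∧ w = a)
  symm := ⟨fun _ _ h => by
    rcases h with h | h | h
    · exact Or.inl h.symm
    · exact Or.inr (Or.inr ⟨h.2, h.1⟩)
    · exact Or.inr (Or.inl ⟨h.2, h.1⟩)⟩
  loopless := ⟨fun _ h => by
    rcases h with h | h | h
    · exact h.ne rfl
    · exact hab (h.1.symm.trans h.2)
    · exact hab (h.2.symm.trans h.1)⟩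

lemma del_adj (S : SimpleGraph V) (a b u w : V) :
    (del S a b).Adj u w ↔ S.Adj u w ∧ ¬ (u = a ∧ w = b) ∧ ¬ (u = b ∧ w = a) := Iff.rfl

lemma del_le (S : SimpleGraph V) (a b : V) : del S a b ≤ S := fun _ _ h => h.1

lemma add_le {S H : SimpleGraph V} {a b : V} (hab : a ≠ b) (hS : S ≤ H) (h : H.Adj a b) :
    add S a b hab ≤ H := by
  intro u w h1
  rcases h1 with h1 | h1 | h1
  · exact hS h1
  · rw [h1.1, h1.2]; exact h
  · rw [h1.1, h1.2]; exact h.symm

lemma cnt_del (S : SimpleGraph V) {a b : V} (h : S.Adj a b) (φ : V × V → Prop) :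
    cnt (del S a b) φ + (ind (φ (a, b)) + ind (φ (b, a))) = cnt S φ := by
  classical
  have hab : a ≠ b := h.ne
  have h1 : (univ.filter (fun p : V × V => S.Adj p.1 p.2 ∧ φ p)) =
      (univ.filter (fun p : V × V => (del S a b).Adj p.1 p.2 ∧ φ p)) ∪
        (({(a, b), (b, a)} : Finset (V × V)).filter φ) := by
    ext ⟨u, w⟩
    simp only [mem_filter, mem_univ, true_and, mem_union, mem_insert, mem_singleton, Prod.mk.injEq,
      del_adj]
    constructor
    · rintro ⟨h2, h3⟩
      by_cases h4 : (u = a ∧ w = b) ∨ (u = b ∧ w = a)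
      · exact Or.inr ⟨h4, h3⟩
      · push Not at h4
        exact Or.inl ⟨⟨h2, fun h5 => h4.1 h5.1 h5.2, fun h5 => h4.2 h5.1 h5.2⟩, h3⟩
    · rintro (⟨h2, h3⟩ | ⟨h2, h3⟩)
      · exact ⟨h2.1, h3⟩
      · refine ⟨?_, h3⟩
        rcases h2 with h2 | h2
        · rw [h2.1, h2.2]; exact h
        · rw [h2.1, h2.2]; exact h.symm
  have h2 : Disjoint (univ.filter (fun p : V × V => (del S a b).Adj p.1 p.2 ∧ φ p))
        (({(a, b), (b, a)} : Finset (V × V)).filter φ) := by
    rw [Finset.disjoint_left]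
    rintro ⟨u, w⟩ h3 h4
    simp only [mem_filter, mem_univ, true_and, mem_insert, mem_singleton, Prod.mk.injEq,
      del_adj] at h3 h4
    rcases h4.1 with h5 | h5
    · exact h3.1.2.1 h5
    · exact h3.1.2.2 h5
  have h3 : (({(a, b), (b, a)} : Finset (V × V)).filter φ).card = ind (φ (a, b)) + ind (φ (b, a)) := by
    have hne : (a, b) ≠ (b, a) := by
      intro h4
      exact hab (Prod.mk.injEq _ _ _ _ ▸ h4).1
    rw [filter_insert, filter_singleton]
    unfold ind
    split_ifs <;> simp [hne]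
  unfold cnt
  rw [h1, card_union_of_disjoint h2, h3]

lemma cnt_add (S : SimpleGraph V) {a b : V} (h : ¬ S.Adj a b) (hab : a ≠ b) (φ : V × V → Prop) :
    cnt (add S a b hab) φ = cnt S φ + (ind (φ (a, b)) + ind (φ (b, a))) := by
  have h1 : (add S a b hab).Adj a b := Or.inr (Or.inl ⟨rfl, rfl⟩)
  rw [← cnt_del _ h1]
  have h2 : del (add S a b hab) a b = S := by
    ext u w
    constructor
    · rintro ⟨h3 | h3 | h3, h4, h5⟩
      · exact h3
      · exact absurd h3 h4
      · exact absurd h3 h5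
    · intro h3
      refine ⟨Or.inl h3, ?_, ?_⟩
      · rintro ⟨rfl, rfl⟩; exact h h3
      · rintro ⟨rfl, rfl⟩; exact h h3.symm
  rw [h2]

lemma cnt_mono {S S' : SimpleGraph V} (h : S ≤ S') (φ : V × V → Prop) : cnt S φ ≤ cnt S' φ := by
  classical
  unfold cnt
  apply card_le_card
  intro p hp
  rw [mem_filter] at hp ⊢
  exact ⟨hp.1, h hp.2.1, hp.2.2⟩

lemma cut_eq (S : SimpleGraph V) (P : Finset V) :
    cut S P = cnt S (fun p => p.1 ∈ P ∧ p.2 ∉ P) := by
  classical
  unfold cut cnt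
  congr 1
  ext p
  simp only [mem_filter, mem_univ, true_and]
  tauto

lemma nY_eq (S : SimpleGraph V) (Y : Finset V) :
    nY S Y = cnt S (fun p => p.1 ∈ Y ∨ p.2 ∈ Y) := by
  classical
  unfold nY cnt
  congr 1
  ext p
  simp only [mem_filter, mem_univ, true_and]

/-- number of ordered adjacent pairs -/
noncomputable def nE (S : SimpleGraph V) : ℕ := cnt S (fun _ => True)

/-- `1` if `P` separates `a` and `b` -/
noncomputable def sep (P : Finset V) (a b : V) : ℕ := ind (a ∈ P ∧ b ∉ P) + ind (b ∈ P ∧ a ∉ P)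

lemma cut_del {S : SimpleGraph V} {a b : V} (h : S.Adj a b) (P : Finset V) :
    cut (del S a b) P + sep P a b = cut S P := by
  rw [cut_eq, cut_eq]
  exact cnt_del S h _

lemma cut_add {S : SimpleGraph V} {a b : V} (h : ¬ S.Adj a b) (hab : a ≠ b) (P : Finset V) :
    cut (add S a b hab) P = cut S P + sep P a b := by
  rw [cut_eq, cut_eq]
  exact cnt_add S h hab _

lemma nY_del {S : SimpleGraph V} {a b : V} (h : S.Adj a b) (Y : Finset V) :
    nY (del S a b) Y + 2 * ind (a ∈ Y ∨ b ∈ Y) = nY S Y := by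
  rw [nY_eq, nY_eq]
  have h1 := cnt_del S h (fun p => p.1 ∈ Y ∨ p.2 ∈ Y)
  have h2 : ind (b ∈ Y ∨ a ∈ Y) = ind (a ∈ Y ∨ b ∈ Y) := by rw [or_comm]
  simp only at h1
  rw [h2] at h1
  omega

lemma nY_add {S : SimpleGraph V} {a b : V} (h : ¬ S.Adj a b) (hab : a ≠ b) (Y : Finset V) :
    nY (add S a b hab) Y = nY S Y + 2 * ind (a ∈ Y ∨ b ∈ Y) := by
  rw [nY_eq, nY_eq]
  have h1 := cnt_add S h hab (fun p => p.1 ∈ Y ∨ p.2 ∈ Y)
  have h2 : ind (b ∈ Y ∨ a ∈ Y) = ind (a ∈ Y ∨ b ∈ Y) := by rw [or_comm]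
  simp only at h1
  rw [h2] at h1
  omega

lemma nE_del {S : SimpleGraph V} {a b : V} (h : S.Adj a b) : nE (del S a b) + 2 = nE S := by
  have h1 := cnt_del S h (fun _ => True)
  rw [ind_pos trivial] at h1
  exact h1

lemma nE_add {S : SimpleGraph V} {a b : V} (h : ¬ S.Adj a b) (hab : a ≠ b) :
    nE (add S a b hab) = nE S + 2 := by
  have h1 := cnt_add S h hab (fun _ => True)
  rw [ind_pos trivial] at h1
  exact h1

lemma sep_in {P : Finset V} {a b : V} (ha : a ∈ P) : sep P a b = ind (b ∉ P) := by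
  unfold sep
  by_cases hb : b ∈ P
  · rw [ind_neg (by tauto), ind_neg (by tauto), ind_neg (by tauto)]
  · rw [ind_pos (by tauto), ind_neg (by tauto), ind_pos (by tauto)]

lemma sep_out {P : Finset V} {a b : V} (ha : a ∉ P) : sep P a b = ind (b ∈ P) := by
  unfold sep
  by_cases hb : b ∈ P
  · rw [ind_neg (by tauto), ind_pos (by tauto), ind_pos (by tauto)]
  · rw [ind_neg (by tauto), ind_neg (by tauto), ind_neg (by tauto)]

lemma exists_least (p : Finset V → Prop) (hne : ∃ P, p P) (hi : ∀ P Q, p P → p Q → p (P ∩ Q)) :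
    ∃ P, p P ∧ ∀ Q, p Q → P ⊆ Q := by
  classical
  obtain ⟨P0, hP0⟩ := hne
  obtain ⟨P, hP, hmin⟩ := exists_min_image (univ.filter p) card ⟨P0, by simp [hP0]⟩
  have hP' : p P := (mem_filter.1 hP).2
  refine ⟨P, hP', fun Q hQ => ?_⟩
  have h1 := hmin (P ∩ Q) (mem_filter.2 ⟨mem_univ _, hi P Q hP' hQ⟩)
  have h2 : P ∩ Q = P := eq_of_subset_of_card_le inter_subset_left h1
  rw [← h2]
  exact inter_subset_right

lemma exists_greatest (p : Finset V → Prop) (hne : ∃ P, p P)
    (hi : ∀ P Q, p P → p Q → p (P ∪ Q)) :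
    ∃ P, p P ∧ ∀ Q, p Q → Q ⊆ P := by
  classical
  obtain ⟨P0, hP0⟩ := hne
  obtain ⟨P, hP, hmax⟩ := exists_max_image (univ.filter p) card ⟨P0, by simp [hP0]⟩
  have hP' : p P := (mem_filter.1 hP).2
  refine ⟨P, hP', fun Q hQ => ?_⟩
  have h1 := hmax (P ∪ Q) (mem_filter.2 ⟨mem_univ _, hi P Q hP' hQ⟩)
  have h2 : P = P ∪ Q := eq_of_subset_of_card_le subset_union_left h1
  rw [h2]
  exact subset_union_right

/-- cheapest linking subgraphs -/
structure Opt (H : SimpleGraph V) (β Y : Finset V) (v : V) (q : ℕ) (S : SimpleGraph V) : Prop where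
  le : S ≤ H
  lk : Lk S β v q
  ny : ∀ S' ≤ H, Lk S' β v q → nY S Y ≤ nY S' Y
  ne : ∀ S' ≤ H, Lk S' β v q → nY S' Y ≤ nY S Y → nE S ≤ nE S'

lemma exists_opt (H : SimpleGraph V) (β Y : Finset V) (v : V) (q : ℕ) (h : Lk H β v q) :
    ∃ S, Opt H β Y v q S := by
  classical
  obtain ⟨S1, hS1, hmin1⟩ := exists_min_image
    (univ.filter (fun S : SimpleGraph V => S ≤ H ∧ Lk S β v q)) (fun S => nY S Y)
    ⟨H, mem_filter.2 ⟨mem_univ _, le_rfl, h⟩⟩
  have h1 := (mem_filter.1 hS1).2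
  obtain ⟨S2, hS2, hmin2⟩ := exists_min_image
    (univ.filter (fun S : SimpleGraph V => S ≤ H ∧ Lk S β v q ∧ nY S Y ≤ nY S1 Y)) nE
    ⟨S1, mem_filter.2 ⟨mem_univ _, h1.1, h1.2, le_rfl⟩⟩
  have h2 := (mem_filter.1 hS2).2
  refine ⟨S2, h2.1, h2.2.1, fun S' h3 h4 => h2.2.2.trans
    (hmin1 S' (mem_filter.2 ⟨mem_univ _, h3, h4⟩)), fun S' h3 h4 h5 => ?_⟩
  exact hmin2 S' (mem_filter.2 ⟨mem_univ _, h3, h4, h5.trans h2.2.2⟩)

/-- tight sets -/
def Tight (S : SimpleGraph V) (β : Finset V) (v : V) (q : ℕ) (P : Finset V) : Prop :=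
  v ∈ P ∧ Disjoint P β ∧ cut S P = q

lemma disj_inter {P Q β : Finset V} (h : Disjoint P β) : Disjoint (P ∩ Q) β :=
  Finset.disjoint_of_subset_left inter_subset_left h

lemma disj_union {P Q β : Finset V} (h : Disjoint P β) (h' : Disjoint Q β) :
    Disjoint (P ∪ Q) β := Finset.disjoint_union_left.2 ⟨h, h'⟩

lemma Tight.both {S : SimpleGraph V} {β : Finset V} {v : V} {q : ℕ} (hl : Lk S β v q)
    {P Q : Finset V} (hP : Tight S β v q P) (hQ : Tight S β v q Q) :
    Tight S β v q (P ∩ Q) ∧ Tight S β v q (P ∪ Q) := by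
  have h1 := cut_sub S P Q
  have h2 := hl (P ∩ Q) (mem_inter.2 ⟨hP.1, hQ.1⟩) (disj_inter hP.2.1)
  have h3 := hl (P ∪ Q) (mem_union_left _ hP.1) (disj_union hP.2.1 hQ.2.1)
  have h4 := hP.2.2
  have h5 := hQ.2.2
  exact ⟨⟨mem_inter.2 ⟨hP.1, hQ.1⟩, disj_inter hP.2.1, by omega⟩,
    ⟨mem_union_left _ hP.1, disj_union hP.2.1 hQ.2.1, by omega⟩⟩

section

variable {H : SimpleGraph V} {β Y : Finset V} {v : V} {q : ℕ} {S : SimpleGraph V}

/-- (A0) -/
lemma Opt.a0 (h : Opt H β Y v q S) {a b : V} (hab : S.Adj a b) :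
    ∃ P, Tight S β v q P ∧ ((a ∈ P ∧ b ∉ P) ∨ (b ∈ P ∧ a ∉ P)) := by
  by_contra hcon
  push Not at hcon
  have hlk : Lk (del S a b) β v q := by
    intro P hvP hPβ
    have h1 := h.lk P hvP hPβ
    have h2 := cut_del hab P
    by_cases ha : a ∈ P
    · rw [sep_in ha] at h2
      by_cases hb : b ∈ P
      · rw [ind_neg (by tauto)] at h2
        omega
      · have h3 : cut S P ≠ q := fun h4 => by
          have := (hcon P ⟨hvP, hPβ, h4⟩).1 ha
          exact hb this
        have := ind_le_one (b ∉ P)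
        omega
    · rw [sep_out ha] at h2
      by_cases hb : b ∈ P
      · have h3 : cut S P ≠ q := fun h4 => by
          have := (hcon P ⟨hvP, hPβ, h4⟩).2 hb
          exact ha this
        have := ind_le_one (b ∈ P)
        omega
      · rw [ind_neg hb] at h2
        omega
  have h1 := nE_del hab
  have h2 := nY_del hab Y
  have h3 := h.ne _ ((del_le S a b).trans h.le) hlk (by omega)
  omega

lemma nb_univ_eq (S : SimpleGraph V) (v : V) {A : Finset V} (h : ∀ w, S.Adj v w → w ∈ A) :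
    nb S v univ = nb S v A := by
  classical
  unfold nb
  congr 1
  ext w
  simp only [mem_filter, mem_univ, true_and]
  exact ⟨fun h1 => ⟨h w h1, h1⟩, fun h1 => h1.2⟩

lemma nb_pos {S : SimpleGraph V} {v w : V} (h : S.Adj v w) : 1 ≤ nb S v univ := by
  classical
  unfold nb
  rw [Nat.one_le_iff_ne_zero, Ne, card_eq_zero]
  intro h1
  have : w ∈ univ.filter (fun w => S.Adj v w) := mem_filter.2 ⟨mem_univ _, h⟩
  rw [h1] at this
  simp at this

/-- (A1) -/
lemma Opt.a1 (h : Opt H β Y v q S) (hv : v ∉ β) : nb S v univ = q := by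
  apply le_antisymm
  · by_cases h0 : ∃ a, S.Adj v a
    · obtain ⟨a0, ha0⟩ := h0
      obtain ⟨P0, hP0, -⟩ := h.a0 ha0
      obtain ⟨P, hP, hmin⟩ := exists_least (Tight S β v q) ⟨P0, hP0⟩
        (fun P Q hP hQ => (hP.both h.lk hQ).1)
      have h1 : ∀ w, S.Adj v w → w ∈ Pᶜ := by
        intro w hw
        obtain ⟨Q, hQ, h2⟩ := h.a0 hw
        rw [mem_compl]
        intro hwP
        have h3 := hmin Q hQ hwP
        rcases h2 with h2 | h2
        · exact h2.2 h3
        · exact h2.2 hQ.1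
      rw [nb_univ_eq S v h1, ← hP.2.2]
      exact nb_le_cut S hP.1 disjoint_compl_left
    · push Not at h0
      have : nb S v univ = 0 := by
        classical
        unfold nb
        rw [card_eq_zero, filter_eq_empty_iff]
        intro w _
        exact h0 w
      omega
  · rw [← cut_singleton]
    exact h.lk {v} (mem_singleton_self v) (Finset.disjoint_singleton_left.2 hv)

/-- (A2) -/
lemma Opt.a2 (h : Opt H β Y v q S) (hv : v ∉ β) (hvY : v ∉ Y) {a : V} (hva : H.Adj v a)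
    (haβ : a ∉ β) (hna : ¬ S.Adj v a) (c : V) : ¬ S.Adj a c := by
  intro hac0
  have hane : v ≠ a := hva.ne
  have hpos : 1 ≤ nb S a univ := nb_pos hac0
  -- (i)
  have h1 : ∃ P, Tight S β v q P ∧ a ∈ P := by
    by_contra hcon
    push Not at hcon
    obtain ⟨P0, hP0, -⟩ := h.a0 hac0
    obtain ⟨P, hP, hmax⟩ := exists_greatest (Tight S β v q) ⟨P0, hP0⟩
        (fun P Q hP hQ => (hP.both h.lk hQ).2)
    have haP := hcon P hP
    have h2 : ∀ c, S.Adj a c → c ∈ P := by
      intro c hc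
      obtain ⟨Q, hQ, h3⟩ := h.a0 hc
      rcases h3 with h3 | h3
      · exact absurd h3.1 (hcon Q hQ)
      · exact hmax Q hQ h3.1
    have h3 := cut_insert_of_all S haP h2
    have h4 := h.lk (insert a P) (mem_insert_of_mem hP.1)
      (Finset.disjoint_insert_left.2 ⟨haβ, hP.2.1⟩)
    have h5 := hP.2.2
    omega
  -- (ii)
  obtain ⟨Pa, ⟨hPa, haPa⟩, hPamin⟩ := exists_least (fun P => Tight S β v q P ∧ a ∈ P) h1
    (fun P Q hP hQ => ⟨(hP.1.both h.lk hQ.1).1, mem_inter.2 ⟨hP.2, hQ.2⟩⟩)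
  -- (iii)
  obtain ⟨c, hac, hcPa⟩ : ∃ c, S.Adj a c ∧ c ∈ Pa := by
    by_contra hcon
    push Not at hcon
    have h3 := cut_erase_of_none S haPa hcon
    have h4 := h.lk (Pa.erase a) (mem_erase.2 ⟨hane, hPa.1⟩)
      (Finset.disjoint_of_subset_left (erase_subset _ _) hPa.2.1)
    have h5 := hPa.2.2
    omega
  have hcv : c ≠ v := by
    rintro rfl
    exact hna hac.symm
  -- (iv)
  obtain ⟨Q, hQ, hQac⟩ := h.a0 hac
  have hcQ : c ∈ Q ∧ a ∉ Q := by
    rcases hQac with h3 | h3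
    · exact absurd (hPamin Q ⟨hQ, h3.1⟩ hcPa) h3.2
    · exact h3
  obtain ⟨Pc, ⟨hPc, hcPc⟩, hPcmin⟩ := exists_least (fun P => Tight S β v q P ∧ c ∈ P)
    ⟨Q, hQ, hcQ.1⟩ (fun P Q hP hQ => ⟨(hP.1.both h.lk hQ.1).1, mem_inter.2 ⟨hP.2, hQ.2⟩⟩)
  have haPc : a ∉ Pc := fun h3 => hcQ.2 (hPcmin Q ⟨hQ, hcQ.1⟩ h3)
  have hPca : Pc ⊆ Pa := hPcmin Pa ⟨hPa, hcPa⟩
  -- (v)
  obtain ⟨b, hvb, hbPc⟩ : ∃ b, S.Adj v b ∧ b ∈ Pc := by
    by_contra hcon
    push Not at hcon
    have h3 : nb S v univ = nb S v Pcᶜ := nb_univ_eq S v (fun w hw => mem_compl.2 (hcon w hw))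
    have h4 := nb_succ_le_cut S (P := Pc) (A := Pcᶜ) hPc.1 disjoint_compl_left hcPc hcv haPc
      hac.symm
    have h5 := h.a1 hv
    have h6 := hPc.2.2
    omega
  have hbv : v ≠ b := hvb.ne
  have hba : b ≠ a := fun h3 => haPc (h3 ▸ hbPc)
  -- (vi)
  have hT1 : (add S v a hane).Adj v b := Or.inl hvb
  have hT2 : (del (add S v a hane) v b).Adj a c := by
    refine ⟨Or.inl hac, ?_, ?_⟩
    · rintro ⟨h3, -⟩; exact hane h3.symm
    · rintro ⟨-, h3⟩; exact hcv h3
  set S2 := del (del (add S v a hane) v b) a c with hS2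
  have hS2H : S2 ≤ H := (del_le _ _ _).trans ((del_le _ _ _).trans (add_le hane h.le hva))
  have hlk : Lk S2 β v q := by
    intro P hvP hPβ
    have h3 := cut_del hT2 P
    have h4 := cut_del hT1 P
    have h5 := cut_add hna hane P
    rw [← hS2] at h3
    rw [sep_in hvP] at h4 h5
    have h6 := h.lk P hvP hPβ
    have hb1 := ind_le_one (b ∉ P)
    by_cases haP : a ∈ P
    · rw [ind_neg (by tauto)] at h5
      rw [sep_in haP] at h3
      have hc1 := ind_le_one (c ∉ P)
      by_cases h7 : cut S P = q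
      · have h8 : Pa ⊆ P := hPamin P ⟨⟨hvP, hPβ, h7⟩, haP⟩
        have h9 : b ∈ P := h8 (hPca hbPc)
        have h10 : c ∈ P := h8 hcPa
        rw [ind_neg (by tauto)] at h3 h4
        omega
      · by_cases h11 : b ∈ P
        · rw [ind_neg (by tauto)] at h4
          omega
        · by_cases h12 : c ∈ P
          · rw [ind_neg (by tauto)] at h3
            omega
          · have h13 := cut_sub_two S haP haPc hcPc h12 hac
            have h14 := h.lk (P ∩ Pc) (mem_inter.2 ⟨hvP, hPc.1⟩) (disj_inter hPβ)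
            have h15 := h.lk (P ∪ Pc) (mem_union_left _ hvP) (disj_union hPβ hPc.2.1)
            have h16 := hPc.2.2
            omega
    · rw [ind_pos haP] at h5
      rw [sep_out haP] at h3
      have hc1 := ind_le_one (c ∈ P)
      by_cases h7 : cut S P = q
      · by_cases h12 : c ∈ P
        · have h8 : Pc ⊆ P := hPcmin P ⟨⟨hvP, hPβ, h7⟩, h12⟩
          have h9 : b ∈ P := h8 hbPc
          rw [ind_neg (by tauto)] at h4
          omega
        · rw [ind_neg h12] at h3
          omega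
      · omega
  -- (vii)
  have hy1 := nY_del hT2 Y
  have hy2 := nY_del hT1 Y
  have hy3 := nY_add hna hane Y
  rw [← hS2] at hy1
  have he1 := nE_del hT2
  have he2 := nE_del hT1
  have he3 := nE_add hna hane
  rw [← hS2] at he1
  have hY : nY S2 Y ≤ nY S Y := by
    by_cases haY : a ∈ Y
    · rw [ind_pos (Or.inl haY)] at hy1
      have := ind_le_one (v ∈ Y ∨ a ∈ Y)
      omega
    · rw [ind_neg (by tauto : ¬ (v ∈ Y ∨ a ∈ Y))] at hy3
      omega
  have := h.ne S2 hS2H hlk hY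
  omega

/-- (A3) -/
lemma Opt.a3 (h : Opt H β Y v q S) (hv : v ∉ β) (hvY : v ∉ Y) (hβY : Disjoint β Y)
    (hq : nb H v β < q) {a : V} (haβ : a ∈ β) (hva : H.Adj v a) : S.Adj v a := by
  by_contra hna
  have hane : v ≠ a := hva.ne
  have h1 := h.a1 hv
  have haY : a ∉ Y := Finset.disjoint_left.1 hβY haβ
  obtain ⟨b, hvb, hbβ⟩ : ∃ b, S.Adj v b ∧ b ∉ β := by
    by_contra hcon
    push Not at hcon
    have h2 := nb_univ_eq S v (A := β) hcon
    have h3 := nb_mono h.le v (subset_refl β)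
    omega
  have hT1 : (add S v a hane).Adj v b := Or.inl hvb
  set S1 := del (add S v a hane) v b with hS1
  have hS1H : S1 ≤ H := (del_le _ _ _).trans (add_le hane h.le hva)
  have hlk : Lk S1 β v q := by
    intro P hvP hPβ
    have h4 := cut_del hT1 P
    have h5 := cut_add hna hane P
    rw [← hS1] at h4
    rw [sep_in hvP] at h4 h5
    have h6 := h.lk P hvP hPβ
    have haP : a ∉ P := fun h7 => Finset.disjoint_left.1 hPβ h7 haβ
    rw [ind_pos haP] at h5
    have hb1 := ind_le_one (b ∉ P)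
    omega
  have hy2 := nY_del hT1 Y
  have hy3 := nY_add hna hane Y
  have he2 := nE_del hT1
  have he3 := nE_add hna hane
  rw [← hS1] at hy2 he2
  rw [ind_neg (by tauto : ¬ (v ∈ Y ∨ a ∈ Y))] at hy3
  have hopt : Opt H β Y v q S1 := by
    refine ⟨hS1H, hlk, fun S' h4 h5 => ?_, fun S' h4 h5 h6 => ?_⟩
    · have := h.ny S' h4 h5
      omega
    · have := h.ne S' h4 h5 (by omega)
      omega
  have hvb1 : ¬ S1.Adj v b := fun h4 => h4.2.1 ⟨rfl, rfl⟩
  have hiso := hopt.a2 hv hvY (h.le hvb) hbβ hvb1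
  obtain ⟨P, hP, hPvb⟩ := h.a0 hvb
  have hbP : b ∉ P := by
    rcases hPvb with h4 | h4
    · exact h4.2
    · exact absurd hP.1 h4.2
  have h2 : ∀ c, S.Adj b c → c ∈ P := by
    intro c hc
    by_cases hcv : c = v
    · rw [hcv]; exact hP.1
    · exfalso
      refine hiso c ⟨Or.inl hc, ?_, ?_⟩
      · rintro ⟨h4, -⟩; exact hvb.ne h4.symm
      · rintro ⟨-, h4⟩; exact hcv h4
  have h3 := cut_insert_of_all S hbP h2
  have h4 := h.lk (insert b P) (mem_insert_of_mem hP.1)
    (Finset.disjoint_insert_left.2 ⟨hbβ, hP.2.1⟩)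
  have h5 := hP.2.2
  have h6 := nb_pos hvb.symm
  omega

end

end MinAux

theorem exists_min (H : SimpleGraph V) (β Y : Finset V) (v : V) (q : ℕ) (hv : v ∉ β) (hvY : v ∉ Y)
    (hβY : Disjoint β Y) (h : Lk H β v q) :
    ∃ S : SimpleGraph V, S ≤ H ∧ Lk S β v q ∧ (∀ S' ≤ H, Lk S' β v q → nY S Y ≤ nY S' Y) ∧
      nb S v univ = q ∧
      (∀ a, H.Adj v a → a ∉ β → ¬ S.Adj v a → ∀ c, ¬ S.Adj a c) ∧
      (nb H v β < q → ∀ a ∈ β, H.Adj v a → S.Adj v a) := by
  obtain ⟨S, hS⟩ := MinAux.exists_opt H β Y v q h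
  exact ⟨S, hS.le, hS.lk, hS.ny, hS.a1 hv, fun a h1 h2 h3 => hS.a2 hv hvY h1 h2 h3,
    fun h1 a h2 h3 => hS.a3 hv hvY hβY h1 h2 h3⟩

end EK
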