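import Pool.Agent.Lib_MP_436432_co.Cut

/-!
# MP_436432_co: replacing a set `P` by a star-like part `K` (piece REPL)

`X' = (X \ P) ∪ K`, `v ∈ K ⊆ P ⊆ X`.  Assume that `cut (res G X) P ≤ q` and that every `K' ⊆ K` containing `v` has
`q ≤ cut (res G X') K'`.

Proof of `repl_cut`.  (a) `cut (res G X') K ≤ cut (res G X) P` (an edge from `K` to `X' \ K = X \ P` leaves `P`), so both
are equal to `q` and every edge of `res G X` leaving `P` has its `P`-end in `K`.
(b) let `v ∈ Q`.  `cut_sub` for `res G X'`, `Q`, `K`, and `q ≤ cut (Q ∩ K)`, give `cut' (Q ∪ K) ≤ cut' Q` (`cut'` for `res G X'`).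
An edge of `res G X` leaving `Q ∪ P` has its inner end in `K` or in `X \ P`, so it is an edge of `res G X'`
leaving `Q ∪ K`.
(c) let `v ∉ Q`.  The same with `cut_posi`: `cut' (Q \ K) + cut' (K \ Q) ≤ cut' Q + cut' K` and `q ≤ cut' (K \ Q)`, so
`cut' (Q \ K) ≤ cut' Q`; an edge of `res G X` leaving `Q \ P` is (inner end in `Q \ P`, outer end in `X \ P` or in `K` by (a))
an edge of `res G X'` leaving `Q \ K`.
-/

set_option autoImplicit false

namespace EK

open Finset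

variable {V : Type} [Fintype V] [DecidableEq V]

theorem repl_cut (G : SimpleGraph V) {X P K : Finset V} {v : V} {q : ℕ} (hvK : v ∈ K) (hKP : K ⊆ P)
    (hPX : P ⊆ X) (hq : cut (res G X) P ≤ q)
    (hstar : ∀ K' : Finset V, K' ⊆ K → v ∈ K' → q ≤ cut (res G ((X \ P) ∪ K)) K') (Q : Finset V) :
    (v ∈ Q → cut (res G X) (Q ∪ P) ≤ cut (res G ((X \ P) ∪ K)) Q) ∧
      (v ∉ Q → cut (res G X) (Q \ P) ≤ cut (res G ((X \ P) ∪ K)) Q) := by
  classical
  set X' : Finset V := (X \ P) ∪ K with hX'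
  have hXP : ∀ w, w ∈ X → w ∉ P → w ∈ X' := fun w h1 h2 => by
    rw [hX', mem_union, mem_sdiff]
    exact Or.inl ⟨h1, h2⟩
  have hKX : ∀ w, w ∈ K → w ∈ X' := fun w h1 => by
    rw [hX', mem_union]
    exact Or.inr h1
  -- (a)
  have hsub : univ.filter (fun p : V × V => p.1 ∈ K ∧ p.2 ∉ K ∧ (res G X').Adj p.1 p.2) ⊆
      univ.filter (fun p : V × V => p.1 ∈ P ∧ p.2 ∉ P ∧ (res G X).Adj p.1 p.2) := by
    rintro ⟨u, w⟩ h
    simp only [mem_filter, mem_univ, true_and] at h ⊢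
    obtain ⟨h1, h2, h3, h4, h5⟩ := h
    have hw : w ∈ X \ P := by
      have h5' : w ∈ (X \ P) ∪ K := h5
      rcases mem_union.mp h5' with h | h
      · exact h
      · exact absurd h h2
    rw [mem_sdiff] at hw
    exact ⟨hKP h1, hw.2, h3, hPX (hKP h1), hw.1⟩
  have hcard : cut (res G X') K ≤ cut (res G X) P := card_le_card hsub
  have hqK : q ≤ cut (res G X') K := hstar K Subset.rfl hvK
  have heq := eq_of_subset_of_card_le hsub (show (univ.filter (fun p : V × V => p.1 ∈ P ∧ p.2 ∉ P ∧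
      (res G X).Adj p.1 p.2)).card ≤ _ from le_trans (show cut (res G X) P ≤ q from hq) hqK)
  have hA : ∀ u w, u ∈ P → w ∉ P → (res G X).Adj u w → u ∈ K := by
    intro u w h1 h2 h3
    have h4 : ((u, w) : V × V) ∈
        univ.filter (fun p : V × V => p.1 ∈ P ∧ p.2 ∉ P ∧ (res G X).Adj p.1 p.2) := by
      simp only [mem_filter, mem_univ, true_and]
      exact ⟨h1, h2, h3⟩
    rw [← heq] at h4
    simp only [mem_filter, mem_univ, true_and] at h4
    exact h4.1
  constructor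
  · -- (b)
    intro hvQ
    have h1 := cut_sub (res G X') Q K
    have h2 : q ≤ cut (res G X') (Q ∩ K) :=
      hstar _ inter_subset_right (mem_inter.mpr ⟨hvQ, hvK⟩)
    have h3 : cut (res G X) (Q ∪ P) ≤ cut (res G X') (Q ∪ K) := by
      unfold cut
      apply card_le_card
      rintro ⟨u, w⟩ h
      simp only [mem_filter, mem_univ, true_and, mem_union, not_or] at h ⊢
      obtain ⟨hu, ⟨hwQ, hwP⟩, hG⟩ := h
      have hwK : w ∉ K := fun h => hwP (hKP h)
      have hwX : w ∈ X' := hXP w hG.2.2 hwP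
      by_cases huP : u ∈ P
      · have huK := hA u w huP hwP hG
        exact ⟨Or.inr huK, ⟨hwQ, hwK⟩, hG.1, hKX u huK, hwX⟩
      · exact ⟨Or.inl (hu.resolve_right huP), ⟨hwQ, hwK⟩, hG.1, hXP u hG.2.1 huP, hwX⟩
    omega
  · -- (c)
    intro hvQ
    have h1 := cut_posi (res G X') Q K
    have h2 : q ≤ cut (res G X') (K \ Q) :=
      hstar _ sdiff_subset (mem_sdiff.mpr ⟨hvK, hvQ⟩)
    have h3 : cut (res G X) (Q \ P) ≤ cut (res G X') (Q \ K) := by
      unfold cut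
      apply card_le_card
      rintro ⟨u, w⟩ h
      simp only [mem_filter, mem_univ, true_and, mem_sdiff, not_and, not_not] at h ⊢
      obtain ⟨⟨huQ, huP⟩, hw, hG⟩ := h
      have huK : u ∉ K := fun h => huP (hKP h)
      refine ⟨⟨huQ, huK⟩, ?_, hG.1, hXP u hG.2.1 huP, ?_⟩
      · intro hwQ
        exact hA w u (hw hwQ) huP hG.symm
      · by_cases hwP : w ∈ P
        · exact hKX w (hA w u hwP huP hG.symm)
        · exact hXP w hG.2.2 hwP
    omega

/-- Consequences: inseparability and links are kept. -/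
theorem repl (G : SimpleGraph V) {X P K β : Finset V} {v : V} {q : ℕ} (hvK : v ∈ K) (hKP : K ⊆ P)
    (hPX : P ⊆ X) (hPβ : Disjoint P β) (hq : cut (res G X) P ≤ q) (hl : Lk (res G X) β v q)
    (hstar : ∀ K' : Finset V, K' ⊆ K → v ∈ K' → q ≤ cut (res G ((X \ P) ∪ K)) K') :
    Lk (res G ((X \ P) ∪ K)) β v q ∧
      (∀ k, Ins (res G X) β k → Ins (res G ((X \ P) ∪ K)) β k) ∧
      (∀ w t, w ∉ P → Lk (res G X) β w t → Lk (res G ((X \ P) ∪ K)) β w t) := by
  have hc := repl_cut G hvK hKP hPX hq hstar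
  refine ⟨?_, ?_, ?_⟩
  · intro Q hv hQ
    refine (hl (Q ∪ P) (mem_union_left _ hv) ?_).trans ((hc Q).1 hv)
    rw [disjoint_union_left]
    exact ⟨hQ, hPβ⟩
  · rintro k hk Q ⟨b, hb, hbQ⟩ ⟨b', hb', hbQ'⟩
    by_cases hv : v ∈ Q
    · refine (hk (Q ∪ P) ⟨b, hb, mem_union_left _ hbQ⟩ ⟨b', hb', ?_⟩).trans ((hc Q).1 hv)
      rw [mem_union, not_or]
      exact ⟨hbQ', fun h => disjoint_left.mp hPβ h hb'⟩
    · refine (hk (Q \ P) ⟨b, hb, ?_⟩ ⟨b', hb', ?_⟩).trans ((hc Q).2 hv)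
      · rw [mem_sdiff]
        exact ⟨hbQ, fun h => disjoint_left.mp hPβ h hb⟩
      · rw [mem_sdiff]
        exact fun h => hbQ' h.1
  · intro w t hw hlw Q hwQ hQ
    by_cases hv : v ∈ Q
    · refine (hlw (Q ∪ P) (mem_union_left _ hwQ) ?_).trans ((hc Q).1 hv)
      rw [disjoint_union_left]
      exact ⟨hQ, hPβ⟩
    · refine (hlw (Q \ P) (mem_sdiff.mpr ⟨hwQ, hw⟩) ?_).trans ((hc Q).2 hv)
      exact disjoint_of_subset_left sdiff_subset hQ

end EK
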