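import Pool.Agent.Lib_MP_436432_co.MinSet
import Pool.Agent.Lib_MP_436432_co.Repl

/-!
# MP_436432_co: stars (piece STAR)

`star`: let `q` be the exact link value of `v` in `res G X`, and let `P` be a set with `v ∈ P`, `P` disjoint from `β` and
`cut (res G X) P = q` (it exists since `¬ Lk (q + 1)`; intersect with `X` by `cut_res_inter` to get `P ⊆ X`).  Take `S`
from `exists_min` with `H = res G X`, `Y = ∅`, and let `K` be `v` together with the vertices of `P` that are not
isolated in `S`.  `S` is a subgraph of `res G ((X \ P) ∪ K)`, so `hstar` of `repl` holds by `Lk S β v q` (a set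
`K' ⊆ K ⊆ P` is disjoint from `β`).
Neighbours of `v` in `X`: a neighbour outside `P` is an `S`-neighbour because all edges leaving `P` are in `S`
(`q ≤ cut S P ≤ cut (res G X) P = q`, and `S ≤ res G X`: two finite sets of pairs of the same size, one
inside the other); a neighbour in `K` is an `S`-neighbour because it is not isolated in `S` (it is in `P`, so
not in `β`); the others are in `P \ K`.  So `nb G v X ≤ nb S v univ + |P \ K| = q + |P \ K|`.
-/

set_option autoImplicit false
set_option linter.unusedSectionVars false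

namespace EK

open Finset

variable {V : Type} [Fintype V] [DecidableEq V]

/-- a tight cut inside `X` from the exact link value -/
theorem exists_tight_cut {G : SimpleGraph V} {X β : Finset V} {v : V} {q : ℕ} (hvX : v ∈ X)
    (h1 : Lk (res G X) β v q) (h2 : ¬ Lk (res G X) β v (q + 1)) :
    ∃ P : Finset V, v ∈ P ∧ P ⊆ X ∧ Disjoint P β ∧ cut (res G X) P = q := by
  unfold Lk at h2
  push Not at h2
  obtain ⟨P, hvP, hP, hc⟩ := h2
  refine ⟨P ∩ X, mem_inter.mpr ⟨hvP, hvX⟩, inter_subset_right,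
    disjoint_of_subset_left inter_subset_left hP, ?_⟩
  have h3 := h1 P hvP hP
  rw [← cut_res_inter]
  omega

/-- all edges leaving a tight cut are in `S` -/
theorem edges_of_tight {H S : SimpleGraph V} (hSH : S ≤ H) {P : Finset V}
    (h : cut H P ≤ cut S P) : ∀ u w, u ∈ P → w ∉ P → H.Adj u w → S.Adj u w := by
  classical
  intro u w hu hw huw
  have hsub : (univ.filter (fun p : V × V => p.1 ∈ P ∧ p.2 ∉ P ∧ S.Adj p.1 p.2)) ⊆
      (univ.filter (fun p : V × V => p.1 ∈ P ∧ p.2 ∉ P ∧ H.Adj p.1 p.2)) := by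
    intro p hp
    simp only [mem_filter, mem_univ, true_and] at hp ⊢
    exact ⟨hp.1, hp.2.1, hSH hp.2.2⟩
  have heq := eq_of_subset_of_card_le hsub h
  have : (u, w) ∈ (univ.filter (fun p : V × V => p.1 ∈ P ∧ p.2 ∉ P ∧ S.Adj p.1 p.2)) := by
    rw [heq]
    simp only [mem_filter, mem_univ, true_and]
    exact ⟨hu, hw, huw⟩
  simp only [mem_filter, mem_univ, true_and] at this
  exact this.2.2

theorem star (G : SimpleGraph V) {X β : Finset V} {v : V} {q : ℕ} (hvX : v ∈ X) (hv : v ∉ β)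
    (h1 : Lk (res G X) β v q) (h2 : ¬ Lk (res G X) β v (q + 1)) :
    ∃ P K : Finset V, v ∈ K ∧ K ⊆ P ∧ P ⊆ X ∧ Disjoint P β ∧ cut (res G X) P = q ∧
      nb G v X ≤ q + (P \ K).card ∧
      Lk (res G ((X \ P) ∪ K)) β v q ∧
      (∀ k, Ins (res G X) β k → Ins (res G ((X \ P) ∪ K)) β k) ∧
      (∀ w t, w ∉ P → Lk (res G X) β w t → Lk (res G ((X \ P) ∪ K)) β w t) := by
  classical
  obtain ⟨P, hvP, hPX, hPβ, hPc⟩ := exists_tight_cut hvX h1 h2
  obtain ⟨S, hS1, hS2, -, hS4, hS5, -⟩ := exists_min (res G X) β ∅ v q hv (notMem_empty v)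
    (disjoint_empty_right β) h1
  set K := P.filter (fun u => u = v ∨ ∃ w, S.Adj u w) with hK
  have hvK : v ∈ K := mem_filter.mpr ⟨hvP, Or.inl rfl⟩
  have hKP : K ⊆ P := filter_subset _ _
  have hSle : S ≤ res G ((X \ P) ∪ K) := by
    have hmem : ∀ u w, S.Adj u w → u ∈ (X \ P) ∪ K := by
      intro u w huw
      have := (hS1 huw).2.1
      by_cases huP : u ∈ P
      · exact mem_union_right _ (mem_filter.mpr ⟨huP, Or.inr ⟨w, huw⟩⟩)
      · exact mem_union_left _ (mem_sdiff.mpr ⟨this, huP⟩)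
    intro u w huw
    exact ⟨(hS1 huw).1, hmem u w huw, hmem w u huw.symm⟩
  have hstar : ∀ K' : Finset V, K' ⊆ K → v ∈ K' → q ≤ cut (res G ((X \ P) ∪ K)) K' := by
    intro K' hK' hvK'
    exact (hS2 K' hvK' (disjoint_of_subset_left (hK'.trans hKP) hPβ)).trans (cut_mono hSle K')
  obtain ⟨r1, r2, r3⟩ := repl G hvK hKP hPX hPβ hPc.le h1 hstar
  refine ⟨P, K, hvK, hKP, hPX, hPβ, hPc, ?_, r1, r2, r3⟩
  have hedge := edges_of_tight hS1 (P := P) (by rw [hPc]; exact hS2 P hvP hPβ)
  have hsub : X.filter (fun w => G.Adj v w) ⊆ (univ.filter (fun w => S.Adj v w)) ∪ (P \ K) := by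
    intro w hw
    rw [mem_filter] at hw
    rw [mem_union, mem_filter, mem_sdiff]
    by_cases hwP : w ∈ P
    · by_cases hwK : w ∈ K
      · left
        refine ⟨mem_univ _, ?_⟩
        by_contra hcon
        rcases (mem_filter.mp hwK).2 with h | ⟨x, hx⟩
        · exact hw.2.ne h.symm
        · exact hS5 w ⟨hw.2, hvX, hw.1⟩ (fun h => disjoint_left.mp hPβ hwP h) hcon x hx
      · exact Or.inr ⟨hwP, hwK⟩
    · left
      exact ⟨mem_univ _, hedge v w hvP hwP ⟨hw.2, hvX, hw.1⟩⟩
  have := (card_le_card hsub).trans (card_union_le _ _)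
  rw [← hS4]
  exact this

end EK
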