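import Pool.Agent.Lib_MP_436432_co.Star

/-!
# MP_436432_co: the first step (piece STEP)
-/

set_option autoImplicit false
set_option linter.unusedSectionVars false

namespace EK

open Finset

variable {V : Type} [Fintype V] [DecidableEq V]

variable {W : Type} {T : SimpleGraph W} {G : SimpleGraph V} {k r n : ℕ} {β : Finset V}

theorem Good.mono {X Y : Finset V} (h : X ⊆ Y) (hY : Good T G Y) : Good T G X := by
  obtain ⟨g, h1, h2⟩ := hY
  exact ⟨g, h1, fun a ha => h2 a (h ha)⟩

/-- the exact link value below a bound -/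
theorem exists_exact {H : SimpleGraph V} {β : Finset V} {v : V} {r : ℕ} (h : ¬ Lk H β v (r + 1)) :
    ∃ q, q ≤ r ∧ Lk H β v q ∧ ¬ Lk H β v (q + 1) := by
  induction r with
  | zero => exact ⟨0, le_rfl, fun _ _ _ => Nat.zero_le _, h⟩
  | succ r ih =>
    by_cases h' : Lk H β v (r + 1)
    · exact ⟨r + 1, le_rfl, h', h⟩
    · obtain ⟨q, h1, h2, h3⟩ := ih h'
      exact ⟨q, by omega, h2, h3⟩

/-- Step: from `star` with `X = insert v U`.  Let `q` be the largest value with `Lk (res G X) β v q` (`q ≤ r` by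
`Ext.top`, as `Ins`, `Good` hold for `X`).  `X' = (X \ P) ∪ K` is a candidate: the vertex `x` of `U` with
`Lk (res G U) β x r` is either outside `P` (and stays linked), or in `P`, and then `r ≤ cut (res G X) P = q`, so `v` itself is
`r`-linked in `X'`.  So `n ≤ |X'| = |X| - |P \ K|`.  (`nb G v U = nb G v X`, `nb_insert_self`.) -/
theorem step (E : Ext T G k β r n) {U : Finset V} (hU : Cand T G k β r U) {v : V} (hv : v ∉ β)
    (hg : Good T G (insert v U)) :
    ∃ q, Lk (res G (insert v U)) β v q ∧ q ≤ r ∧ nb G v U + n ≤ q + (insert v U).card := by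
  obtain ⟨hβU, hI, -, x, hxU, hxβ, hxl⟩ := hU
  have hUX : U ⊆ insert v U := subset_insert _ _
  have hIX := hI.mono (res_mono (G := G) hUX)
  have hvX : v ∈ insert v U := mem_insert_self _ _
  obtain ⟨q, hqr, h1, h2⟩ := exists_exact (E.top _ (hβU.trans hUX) hIX hg v hvX hv)
  obtain ⟨P, K, hvK, hKP, hPX, hPβ, hPc, hnb, r1, r2, r3⟩ := star G hvX hv h1 h2
  refine ⟨q, h1, hqr, ?_⟩
  have hcand : Cand T G k β r ((insert v U \ P) ∪ K) := by
    refine ⟨?_, r2 k hIX, hg.mono ?_, ?_⟩
    · intro b hb
      exact mem_union_left _ (mem_sdiff.mpr ⟨hUX (hβU hb), fun h => disjoint_left.mp hPβ h hb⟩)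
    · exact union_subset sdiff_subset (hKP.trans hPX)
    · by_cases hxP : x ∈ P
      · refine ⟨v, mem_union_right _ hvK, hv, ?_⟩
        have : r ≤ q := by
          rw [← hPc]
          exact hxl.mono (res_mono hUX) P hxP hPβ
        intro Q hQ hQ'
        exact this.trans (r1 Q hQ hQ')
      · exact ⟨x, mem_union_left _ (mem_sdiff.mpr ⟨hUX hxU, hxP⟩), hxβ,
          r3 x r hxP (hxl.mono (res_mono hUX))⟩
  have hn := E.min _ hcand
  have hcard : ((insert v U \ P) ∪ K).card ≤ (insert v U \ P).card + K.card := card_union_le _ _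
  have h5 : (insert v U \ P).card = (insert v U).card - P.card := card_sdiff_of_subset hPX
  have h6 : (P \ K).card = P.card - K.card := card_sdiff_of_subset hKP
  have h7 := card_le_card hPX
  have h8 := card_le_card hKP
  rw [nb_insert_self] at hnb
  omega

end EK
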